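import Mathlib

/-! No orbit of the recurrence has an eventually periodic sequence of cases. -/

set_option autoImplicit false

namespace Pool.Agent.P.MP_aaabff_nt.Aper

theorem isInt {x : ℚ} {u v : ℤ} (h : IsCoprime u v) (hu : ∃ z : ℤ, u * x = z)
    (hv : ∃ z : ℤ, v * x = z) : ∃ z : ℤ, x = z := by
  obtain ⟨r, s, h⟩ := h
  obtain ⟨y, hy⟩ := hu
  obtain ⟨z, hz⟩ := hv
  refine ⟨r * y + s * z, ?_⟩
  have : (r : ℚ) * u + s * v = 1 := by exact_mod_cast h
  push_cast
  rw [← hy, ← hz]
  linear_combination (-x) * this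

/-- a quantity that is tripled by a tripling and kept by a level-up outgrows `2 ^ a` -/
theorem grow {L : ℕ → Prop} {a : ℕ → ℕ} {N P : ℕ} (hP : 0 < P)
    (h1 : ∀ n, L n → a (n + 1) = a n + 1) (h2 : ∀ n, ¬ L n → a (n + 1) = a n)
    (hLL : ∀ n, N ≤ n → L n → ¬ L (n + 1)) (E : ℕ → ℚ) (C : ℚ)
    (e1 : ∀ n, N ≤ n → L n → E n ≤ E (n + 1)) (e2 : ∀ n, N ≤ n → ¬ L n → 3 * E n ≤ E (n + 1))
    (hb : ∀ j, E (N + j * P) ≤ C * 2 ^ a (N + j * P)) : E N ≤ 0 := by
  by_contra h0
  push Not at h0
  have key : ∀ i, E N / 2 ^ a N * (3 / 2) ^ i * 2 ^ a (N + 2 * i) ≤ E (N + 2 * i) := by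
    intro i
    induction i with
    | zero => simp
    | succ i ih =>
      set n := N + 2 * i with hn
      have hn' : N ≤ n := by omega
      rw [show N + 2 * (i + 1) = n + 1 + 1 by omega, pow_succ]
      have hp : 0 < E N / 2 ^ a N * (3 / 2) ^ i * 2 ^ a n := by positivity
      by_cases l0 : L n
      · have l1 := hLL n hn' l0
        have := e1 n hn' l0
        have := e2 (n + 1) (by omega) l1
        rw [h2 _ l1, h1 _ l0, pow_succ]
        linarith
      · have := e2 n hn' l0
        by_cases l1 : L (n + 1)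
        · have := e1 (n + 1) (by omega) l1
          rw [h1 _ l1, h2 _ l0, pow_succ]
          linarith
        · have := e2 (n + 1) (by omega) l1
          rw [h2 _ l1, h2 _ l0]
          linarith
  have hr : 0 < E N / 2 ^ a N := by positivity
  obtain ⟨j, hj⟩ := pow_unbounded_of_one_lt (C / (E N / 2 ^ a N)) (show (1 : ℚ) < 3 / 2 by norm_num)
  have k := key (j * P)
  have b := hb (2 * j)
  rw [show N + 2 * j * P = N + 2 * (j * P) by ring] at b
  have m : ((3 : ℚ) / 2) ^ j ≤ (3 / 2) ^ (j * P) :=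
    pow_le_pow_right₀ (by norm_num) (Nat.le_mul_of_pos_right _ hP)
  have := le_of_mul_le_mul_right (k.trans b) (by positivity)
  rw [div_lt_iff₀ hr] at hj
  nlinarith

/-- the values that the backward chain can take -/
def Ok (j : ℕ) (l : Prop) (D : ℤ) : Prop :=
  (j = 0 ∧ ¬ l ∧ -2 ≤ D ∧ D ≤ 24) ∨ (j = 1 ∧ l ∧ 10 ≤ D ∧ D ≤ 62 ∧ D % 2 = 0) ∨
  (j = 1 ∧ ¬ l ∧ 2 ≤ D ∧ D ≤ 20 ∧ D % 2 = 0) ∨ (j = 2 ∧ l ∧ 12 ≤ D ∧ D ≤ 48 ∧ D % 4 = 0) ∨
  (j = 2 ∧ ¬ l ∧ 4 ≤ D ∧ D ≤ 16 ∧ D % 4 = 0) ∨ (j = 3 ∧ l ∧ 4 ≤ D ∧ D ≤ 28 ∧ D % 8 = 4) ∨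
  (j = 3 ∧ ¬ l ∧ D = 4) ∨ (j = 4 ∧ l ∧ D = -20)

theorem core {L : ℕ → Prop} {a : ℕ → ℕ} {c : ℕ → ℤ} {N P p : ℕ} (hP : 0 < P) (hp : 0 < p)
    (h1 : ∀ n, L n → a (n + 1) = a n + 1) (h2 : ∀ n, ¬ L n → a (n + 1) = a n)
    (c1 : ∀ n, L n → c (n + 1) = c n - 20 * 2 ^ a n + 3) (c2 : ∀ n, ¬ L n → c (n + 1) = 3 * c n)
    (cb : ∀ n, ¬ L n → 0 ≤ c n ∧ c n ≤ 23 * 2 ^ a n)
    (hLL : ∀ n, N ≤ n → L n → ¬ L (n + 1)) (per : ∀ n, N ≤ n → (L (n + P) ↔ L n))
    (pa : ∀ n, N ≤ n → a (n + P) = a n + p) (hN : ¬ L N) (hN' : L (N + P - 1))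
    (hd : p ∣ a N) : False := by
  classical
  let X : ℚ → ℕ → ℚ := fun x i =>
    Nat.rec x (fun i y => if L (N + i) then (y - 1) / 2 else 3 * y) i
  have X1 : ∀ x i, L (N + i) → X x (i + 1) = (X x i - 1) / 2 := fun x i h => if_pos h
  have X2 : ∀ x i, ¬ L (N + i) → X x (i + 1) = 3 * X x i := fun x i h => if_neg h
  have aff : ∀ i, ∃ (u : ℤ) (s t : ℕ), a (N + i) = a N + t ∧
      ∀ x, 2 ^ t * X x i = 3 ^ s * x - u := by
    intro i
    induction i with
    | zero => exact ⟨0, 0, 0, rfl, fun x => by simp [X]⟩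
    | succ i ih =>
      obtain ⟨u, s, t, h, hx⟩ := ih
      by_cases l : L (N + i)
      · refine ⟨u + 2 ^ t, s, t + 1, by rw [← add_assoc, h1 _ l, h, add_assoc], fun x => ?_⟩
        rw [X1 x i l]; push_cast; linear_combination hx x
      · refine ⟨3 * u, s + 1, t, by rw [← add_assoc, h2 _ l, h], fun x => ?_⟩
        rw [X2 x i l]; push_cast; linear_combination 3 * hx x
  obtain ⟨u, s, t, ht, hx⟩ := aff P
  obtain rfl : t = p := by have := pa N le_rfl; omega
  have hodd : Odd ((3 : ℤ) ^ s - 2 ^ t) :=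
    (Odd.pow (by decide)).sub_even ((Int.even_pow' hp.ne').2 (by decide))
  have hQ : ((3 : ℚ) ^ s - 2 ^ t) ≠ 0 := by
    have : ((3 : ℤ) ^ s - 2 ^ t) ≠ 0 := fun h => by rw [h] at hodd; exact absurd hodd (by decide)
    exact_mod_cast this
  set x : ℚ := u / (3 ^ s - 2 ^ t) with hxd
  have hxu : (3 ^ s - 2 ^ t) * x = u := mul_div_cancel₀ _ hQ
  set F := X x with hF
  have F0 : F 0 = x := rfl
  have F1 : ∀ i, L (N + i) → F (i + 1) = (F i - 1) / 2 := X1 x
  have F2 : ∀ i, ¬ L (N + i) → F (i + 1) = 3 * F i := X2 x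
  have Fp : ∀ i, F (i + P) = F i := by
    intro i
    induction i with
    | zero =>
      refine mul_left_cancel₀ (show (2 : ℚ) ^ t ≠ 0 by positivity) ?_
      rw [zero_add, hx x, F0]; linear_combination hxu
    | succ i ih =>
      have := per (N + i) (by omega)
      rw [show i + 1 + P = i + P + 1 by omega]
      by_cases l : L (N + i)
      · rw [F1 _ l, F1 _ (by rw [← add_assoc]; exact this.2 l), ih]
      · rw [F2 _ l, F2 _ (by rw [← add_assoc]; exact fun h => l (this.1 h)), ih]
  clear_value F x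
  let G : ℕ → ℚ := fun n => 20 * 2 ^ a n * F (n - N) - c n
  have G1 : ∀ n, N ≤ n → L n → G (n + 1) = G n - 3 := fun n hn l => by
    simp only [G]
    rw [show n + 1 - N = n - N + 1 by omega, F1 _ (by rwa [Nat.add_sub_cancel' hn]), h1 _ l,
      c1 _ l]
    push_cast; ring
  have G2 : ∀ n, N ≤ n → ¬ L n → G (n + 1) = 3 * G n := fun n hn l => by
    simp only [G]
    rw [show n + 1 - N = n - N + 1 by omega, F2 _ (by rwa [Nat.add_sub_cancel' hn]), h2 _ l,
      c2 _ l]
    push_cast; ring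
  have it : ∀ j, ¬ L (N + j * P) ∧ F (j * P) = x ∧ a (N + j * P) = a N + j * t := by
    intro j
    induction j with
    | zero => simpa using ⟨hN, F0⟩
    | succ j ih =>
      rw [add_mul, one_mul, ← add_assoc, per _ (by omega), Fp, pa _ (by omega), ih.2.2]
      exact ⟨ih.1, ih.2.1, by ring⟩
  have Gb : ∀ j, |G (N + j * P)| ≤ (20 * |x| + 23) * 2 ^ a (N + j * P) := fun j => by
    obtain ⟨b1, b2⟩ := cb _ (it j).1
    have b1 : (0 : ℚ) ≤ c (N + j * P) := by exact_mod_cast b1
    have b2 : (c (N + j * P) : ℚ) ≤ 23 * 2 ^ a (N + j * P) := by exact_mod_cast b2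
    simp only [G]
    rw [Nat.add_sub_cancel_left, (it j).2.1, abs_le]
    have : (0 : ℚ) < 2 ^ a (N + j * P) := by positivity
    constructor <;> nlinarith [le_abs_self x, neg_abs_le x]
  have g1 : G N ≤ 3 / 2 := by
    have := grow hP h1 h2 hLL (fun n => G n - if L n then 9 / 2 else 3 / 2) (20 * |x| + 23)
      (fun n hn l => by rw [G1 n hn l, if_pos l, if_neg (hLL n hn l)]; linarith)
      (fun n hn l => by rw [G2 n hn l, if_neg l]; split_ifs <;> linarith)
      fun j => by rw [if_neg (it j).1]; linarith [Gb j, le_abs_self (G (N + j * P))]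
    rw [if_neg hN] at this; linarith
  have g2 : 0 ≤ G N := by
    have := grow hP h1 h2 hLL (fun n => -G n) (20 * |x| + 23)
      (fun n hn l => by rw [G1 n hn l]; linarith) (fun n hn l => by rw [G2 n hn l]; linarith)
      fun j => by linarith [Gb j, neg_abs_le (G (N + j * P))]
    linarith
  have D1 : ∀ n, N ≤ n → L n → G (n + 1 + P) - G (n + 1) = G (n + P) - G n := fun n hn l => by
    rw [show n + 1 + P = n + P + 1 by omega, G1 n hn l, G1 _ (by omega) ((per n hn).2 l)]; ring
  have D2 : ∀ n, N ≤ n → ¬ L n → G (n + 1 + P) - G (n + 1) = 3 * (G (n + P) - G n) :=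
    fun n hn l => by
      rw [show n + 1 + P = n + P + 1 by omega, G2 n hn l,
        G2 _ (by omega) fun h => l ((per n hn).1 h)]; ring
  have Gp : ∀ i, G (N + i + P) - G (N + i) = 0 := by
    intro i
    induction i with
    | zero =>
      refine abs_nonpos_iff.1 (grow hP h1 h2 hLL (fun n => |G (n + P) - G n|)
        ((20 * |x| + 23) * (2 ^ t + 1)) (fun n hn l => by rw [D1 n hn l])
        (fun n hn l => by rw [D2 n hn l, abs_mul]; norm_num) fun j => ?_)
      have b := Gb (j + 1)
      rw [add_mul, one_mul, ← add_assoc, pa _ (by omega), pow_add] at b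
      linarith [Gb j, abs_sub (G (N + j * P + P)) (G (N + j * P))]
    | succ i ih =>
      rw [← add_assoc]
      by_cases l : L (N + i)
      · rw [D1 _ (by omega) l, ih]
      · rw [D2 _ (by omega) l, ih, mul_zero]
  have G5 : ∀ j, G (N + j * P) = G N := by
    intro j
    induction j with
    | zero => simp
    | succ j ih => rw [add_mul, one_mul, ← add_assoc, ← ih]; linarith [Gp (j * P)]
  -- integrality up to powers of two
  obtain ⟨m, hm⟩ : (2 : ℤ) ^ t - 1 ∣ 2 ^ (a N + 5 * t) - 1 := by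
    obtain ⟨r, hr⟩ := hd
    rw [hr, show t * r + 5 * t = t * (r + 5) by ring, pow_mul]
    simpa using sub_dvd_pow_sub_pow ((2 : ℤ) ^ t) 1 (r + 5)
  have hm : (2 : ℚ) ^ (a N + 5 * t) - 1 = (2 ^ t - 1) * m := by exact_mod_cast hm
  have two : ∀ i j : ℕ, a (N + i) + j = a N + 5 * t →
      ∃ z : ℤ, ((2 ^ a (N + i) : ℤ) : ℚ) * (20 * F i - 2 ^ j * G (N + i)) = z := fun i j h => by
    refine ⟨2 ^ (a N + 5 * t) * c (N + i) - m * (c (N + i + P) - c (N + i)), ?_⟩
    have g := Gp i
    simp only [G] at g ⊢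
    rw [show N + i + P - N = i + P by omega, Nat.add_sub_cancel_left, Fp, pa _ (by omega),
      pow_add] at g
    rw [Nat.add_sub_cancel_left]
    have e : (2 : ℚ) ^ (a N + 5 * t) = 2 ^ a (N + i) * 2 ^ j := by rw [← h, pow_add]
    push_cast
    rw [e] at hm ⊢
    linear_combination (-20 * 2 ^ a (N + i) * F i) * hm - m * g
  have chain : ∀ r i, i + r = 5 * P → ∃ (j : ℕ) (D : ℤ), a (N + i) + j = a N + 5 * t ∧
      (j = 0 → r = 0) ∧ 20 * F i - 2 ^ j * G (N + i) = D ∧ Ok j (L (N + i)) D := by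
    intro r
    induction r with
    | zero =>
      intro i hi
      obtain rfl : i = 5 * P := hi
      obtain ⟨D, hD⟩ := isInt (x := 20 * F (5 * P) - 2 ^ 0 * G (N + 5 * P))
        ((Int.isCoprime_two_left.2 hodd).pow_left (m := a (N + 5 * P))) (two _ 0 (it 5).2.2)
        ⟨20 * u - 20 * 2 ^ a N * u + (3 ^ s - 2 ^ t) * c N, by
          rw [G5, (it 5).2.1]; simp only [G]; rw [Nat.sub_self, F0]; push_cast
          linear_combination (20 - 20 * 2 ^ a N) * hxu⟩
      refine ⟨0, D, (it 5).2.2, fun _ => rfl, hD, Or.inl ⟨rfl, (it 5).1, ?_⟩⟩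
      rw [G5, (it 5).2.1] at hD
      obtain ⟨b1, b2⟩ := cb _ hN
      have b1 : (0 : ℚ) ≤ c N := by exact_mod_cast b1
      have b2 : (c N : ℚ) ≤ 23 * 2 ^ a N := by exact_mod_cast b2
      have e : G N = 20 * 2 ^ a N * x - c N := by simp only [G]; rw [Nat.sub_self, F0]
      have y : (1 : ℚ) ≤ 2 ^ a N := one_le_pow₀ (by norm_num)
      have x0 : 0 ≤ x := by by_contra h; push Not at h; nlinarith
      have x1 : 20 * x ≤ 49 / 2 := by by_contra h; push Not at h; nlinarith
      have d1 : (-3 : ℚ) < D := by linarith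
      have d2 : (D : ℚ) < 25 := by linarith
      have d1 : -3 < D := by exact_mod_cast d1
      have d2 : D < 25 := by exact_mod_cast d2
      omega
    | succ r ih =>
      intro i hi
      obtain ⟨j, D, hj, h0, hD, ok⟩ := ih (i + 1) (by omega)
      rw [← add_assoc] at hj hD ok
      by_cases l : L (N + i)
      · have l' := hLL _ (by omega) l
        rw [h1 _ l] at hj
        refine ⟨j + 1, 2 * D + 20 - 6 * 2 ^ j, by omega, by omega, ?_, ?_⟩
        · rw [F1 _ l, G1 _ (by omega) l] at hD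
          push_cast; linear_combination 2 * hD
        · simp only [Ok, l, l', not_true, not_false_iff, true_and, false_and, and_false, false_or,
            or_false] at ok ⊢
          rcases ok with ⟨rfl, h⟩ | ⟨rfl, h⟩ | ⟨rfl, h⟩ | ⟨rfl, h⟩ <;> omega
      · rw [h2 _ l] at hj
        rw [F2 _ l, G2 _ (by omega) l] at hD
        obtain ⟨D', hD'⟩ := isInt (x := 20 * F i - 2 ^ j * G (N + i)) (v := 3)
          ((Int.isCoprime_two_left.2 (by decide)).pow_left (m := a (N + i))) (two i j hj)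
          ⟨D, by push_cast; linear_combination hD⟩
        have e : D = 3 * D' := by
          have : (D : ℚ) = 3 * D' := by linear_combination 3 * hD' - hD
          exact_mod_cast this
        have j0 : j ≠ 0 := fun h => l (by
          have := h0 h
          have q : ∀ k, L (N + P - 1 + k * P) := fun k => by
            induction k with
            | zero => simpa using hN'
            | succ k ih => rw [add_mul, one_mul, ← add_assoc, per _ (by omega)]; exact ih
          rw [show N + i = N + P - 1 + 4 * P by omega]; exact q 4)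
        refine ⟨j, D', hj, fun h => absurd h j0, hD', ?_⟩
        simp only [Ok, l, not_false_iff, true_and, false_and, and_false, false_or,
          or_false] at ok ⊢
        rcases ok with h | h | h | h | h | h | h | h <;> omega
  obtain ⟨j, D, hj, -, -, ok⟩ := chain (5 * P) 0 (zero_add _)
  simp only [Ok, add_zero] at ok hj
  omega

theorem main {a b : ℕ → ℕ}
    (ha : ∀ n, a (n + 1) = if 10 * 2 ^ a n - 1 ≤ b n then a n + 1 else a n)
    (hb : ∀ n, b (n + 1) =
      if 10 * 2 ^ a n - 1 ≤ b n then b n - (10 * 2 ^ a n - 1) else 3 * b n + a n + 5)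
    {N P : ℕ} (hP : 0 < P) (per : ∀ n, N ≤ n →
      (10 * 2 ^ a (n + P) - 1 ≤ b (n + P) ↔ 10 * 2 ^ a n - 1 ≤ b n)) : False := by
  classical
  set L : ℕ → Prop := fun n => 10 * 2 ^ a n - 1 ≤ b n with hL
  replace per : ∀ n, N ≤ n → (L (n + P) ↔ L n) := per
  have h1 : ∀ n, L n → a (n + 1) = a n + 1 := fun n l => (ha n).trans (if_pos l)
  have h2 : ∀ n, ¬ L n → a (n + 1) = a n := fun n l => (ha n).trans (if_neg l)
  have pos : ∀ x : ℕ, 0 < 2 ^ x := fun x => by positivity
  have b1 : ∀ n, L n → b (n + 1) + 10 * 2 ^ a n = b n + 1 := fun n l => by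
    have := (hb n).trans (if_pos l)
    have := pos (a n)
    simp only [hL] at l
    omega
  have b2 : ∀ n, ¬ L n → b (n + 1) = 3 * b n + a n + 5 := fun n l => (hb n).trans (if_neg l)
  have b3 : ∀ n, ¬ L n → b n + 1 < 10 * 2 ^ a n := fun n l => by simp only [hL] at l; omega
  clear_value L
  have mono : Monotone a := monotone_nat_of_le_succ fun n => by
    by_cases l : L n
    · rw [h1 n l]; omega
    · rw [h2 n l]
  have pj : ∀ j n, N ≤ n → (L (n + j * P) ↔ L n) := fun j n hn => by
    induction j with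
    | zero => simp
    | succ j ih => rw [add_mul, one_mul, ← add_assoc, per _ (by omega), ih]
  obtain ⟨m, hm, lm⟩ : ∃ m, N ≤ m ∧ ¬ L m := by
    by_contra h
    push Not at h
    have : ∀ i, b (N + i) + i ≤ b N := fun i => by
      induction i with
      | zero => simp
      | succ i ih =>
        have := b1 _ (h (N + i) (by omega))
        have := pos (a (N + i))
        rw [show N + (i + 1) = N + i + 1 from rfl]; omega
    have := this (b N + 1)
    omega
  obtain ⟨k, hk, lk⟩ : ∃ k, N ≤ k ∧ L k := by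
    by_contra h
    push Not at h
    have : ∀ i, a (N + i) = a N ∧ i ≤ b (N + i) := fun i => by
      induction i with
      | zero => simp
      | succ i ih =>
        rw [← add_assoc, h2 _ (h _ (by omega)), b2 _ (h _ (by omega))]
        exact ⟨ih.1, by omega⟩
    have h3 := b3 _ (h (N + 10 * 2 ^ a N) (by omega))
    have := this (10 * 2 ^ a N)
    rw [this.1] at h3
    omega
  obtain ⟨p, hp⟩ := Nat.exists_eq_add_of_le (mono (Nat.le_add_right N P))
  have pa : ∀ n, N ≤ n → a (n + P) = a n + p := fun n hn => by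
    induction n, hn using Nat.le_induction with
    | base => exact hp
    | succ n hn ih =>
      rw [show n + 1 + P = n + P + 1 by omega]
      by_cases l : L n
      · rw [h1 _ l, h1 _ ((per n hn).2 l), ih]; omega
      · rw [h2 _ l, h2 _ fun h => l ((per n hn).1 h), ih]
  have p0 : 0 < p := by
    have := mono (show k + 1 ≤ k + P by omega)
    rw [pa k hk, h1 k lk] at this
    omega
  have aj : ∀ j n, N ≤ n → a (n + j * P) = a n + j * p := fun j n hn => by
    induction j with
    | zero => simp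
    | succ j ih => rw [add_mul, one_mul, ← add_assoc, pa _ (by omega), ih]; ring
  have gr : ∀ n i, b (n + i) + a (n + i) + 5 ≤ 3 ^ i * (b n + a n + 5) := fun n i => by
    induction i with
    | zero => simp
    | succ i ih =>
      rw [← add_assoc, pow_succ', mul_assoc]
      by_cases l : L (n + i)
      · have := b1 _ l
        have := pos (a (n + i))
        rw [h1 _ l]; omega
      · rw [h2 _ l, b2 _ l]; omega
  have tll : ∀ n, N ≤ n → ¬ L n → L (n + 1) → ¬ L (n + 2) := fun n hn l0 l1 l2 => by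
    have key : ∀ j, 2 ^ a (n + j * P) ≤ 3 ^ (2 * P) * (2 * a (n + j * P) + 11) := fun j => by
      have l0 : ¬ L (n + j * P) := fun h => l0 ((pj j n hn).1 h)
      have l1 : L (n + j * P + 1) := by
        rw [show n + j * P + 1 = n + 1 + j * P by omega]; exact (pj j _ (by omega)).2 l1
      have l2 : L (n + j * P + 1 + 1) := by
        rw [show n + j * P + 1 + 1 = n + 2 + j * P by omega]; exact (pj j _ (by omega)).2 l2
      have hn' : N ≤ n + j * P := by omega
      generalize n + j * P = q at *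
      have l3 : L (q + 1 + 2 * P) := (pj 2 _ (by omega)).2 l1
      have e0 := b3 q l0
      have e1 := b2 q l0
      have e2 := b1 _ l1
      have e3 := b1 _ l2
      have a1 := h2 q l0
      have a2 := h1 _ l1
      have a3 := h1 _ l2
      rw [a2, a1, pow_succ] at e3
      rw [a1] at e2
      have g := gr (q + 1 + 1 + 1) (2 * P - 2)
      rw [show q + 1 + 1 + 1 + (2 * P - 2) = q + 1 + 2 * P by omega] at g
      have e4 := b1 _ l3
      have m1 : 2 ^ a q ≤ 2 ^ a (q + 1 + 2 * P) :=
        Nat.pow_le_pow_right (by norm_num) (mono (by omega))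
      have m2 : 3 ^ (2 * P - 2) * (b (q + 1 + 1 + 1) + a (q + 1 + 1 + 1) + 5) ≤
          3 ^ (2 * P) * (2 * a q + 11) :=
        Nat.mul_le_mul (Nat.pow_le_pow_right (by norm_num) (by omega)) (by omega)
      omega
    have k := key (13 * 3 ^ (2 * P) + 5)
    have q : 13 * 3 ^ (2 * P) + 5 ≤ a (n + (13 * 3 ^ (2 * P) + 5) * P) := by
      rw [aj _ n hn]; exact (Nat.le_mul_of_pos_right _ p0).trans (Nat.le_add_left _ _)
    generalize a (n + (13 * 3 ^ (2 * P) + 5) * P) = x at k q
    generalize 3 ^ (2 * P) = K at k q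
    have sq : ∀ y, 5 ≤ y → y * y < 2 ^ y := fun y hy => by
      induction y, hy using Nat.le_induction with
      | base => norm_num
      | succ y hy ih => rw [pow_succ]; nlinarith
    nlinarith [sq x (by omega)]
  have hLL : ∀ n, m ≤ n → L n → ¬ L (n + 1) := fun n hn => by
    induction n, hn using Nat.le_induction with
    | base => exact fun h => absurd h lm
    | succ n hn ih => exact fun l1 => tll n (by omega) (fun l0 => ih l0 l1) l1
  have ex : ∃ i, (a m + 1) * p ≤ a (m + i) :=
    ⟨(a m + 1) * P, by rw [aj _ m hm]; omega⟩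
  have hi := Nat.find_spec ex
  have lt : a m < (a m + 1) * p := by nlinarith
  obtain ⟨i, hi'⟩ : ∃ i, Nat.find ex = i + 1 := Nat.exists_eq_succ_of_ne_zero fun h => by
    rw [h, add_zero] at hi; omega
  have lo := Nat.find_min ex (show i < Nat.find ex by omega)
  rw [hi', ← add_assoc] at hi
  have li : L (m + i) := by_contra fun h => lo (by rwa [h2 _ h] at hi)
  refine core (L := L) (a := a) (c := fun n => 2 * b n + a n + 5) (N := m + i + 1) hP p0 h1 h2
    (fun n l => ?_) (fun n l => ?_) (fun n l => ⟨by positivity, ?_⟩)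
    (fun n hn => hLL n (by omega)) (fun n hn => per n (by omega)) (fun n hn => pa n (by omega))
    (hLL _ (by omega) li) ?_ ⟨a m + 1, ?_⟩
  · have := b1 n l
    zify at this
    simp only [h1 n l]; push_cast; linarith
  · simp only [h2 n l, b2 n l]; push_cast; ring
  · have := b3 n l
    have := @Nat.lt_two_pow_self (a n)
    have : 2 * b n + a n + 5 ≤ 23 * 2 ^ a n := by omega
    exact_mod_cast this
  · rw [show m + i + 1 + P - 1 = m + i + P by omega, per _ (by omega)]; exact li
  · rw [h1 _ li] at hi ⊢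
    rw [mul_comm]; omega

end Pool.Agent.P.MP_aaabff_nt.Aper
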