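import Pool.Agent.P.MP_aaabff_nt.Str

set_option autoImplicit false

namespace Pool.Agent.P.MP_aaabff_nt

open Finset

theorem pow4 (r : ℕ) : ∃ z : ℤ, (4 : ℤ) ^ (3 ^ r) = 1 + 3 ^ (r + 1) * (1 + 3 * z) := by
  induction r with
  | zero => exact ⟨0, by norm_num⟩
  | succ r ih =>
    obtain ⟨z, hz⟩ := ih
    refine ⟨z + 3 ^ r * (1 + 3 * z) ^ 2 + 3 ^ (2 * r) * (1 + 3 * z) ^ 3, ?_⟩
    rw [pow_succ 3 r, pow_mul, hz]
    ring

theorem bern (y : ℤ) (w : ℕ) : ∃ q : ℤ, (1 + y) ^ w = 1 + w * y + y ^ 2 * q := by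
  induction w with
  | zero => exact ⟨0, by simp⟩
  | succ w ih =>
    obtain ⟨q, hq⟩ := ih
    refine ⟨q + w + y * q, ?_⟩
    rw [pow_succ, hq]
    push_cast
    ring

theorem pow4' (r w : ℕ) : ∃ z : ℤ, (4 : ℤ) ^ (3 ^ r * w) = 1 + 3 ^ (r + 1) * (w + 3 * z) := by
  obtain ⟨z, hz⟩ := pow4 r
  obtain ⟨q, hq⟩ := bern (3 ^ (r + 1) * (1 + 3 * z)) w
  refine ⟨w * z + 3 ^ r * (1 + 3 * z) ^ 2 * q, ?_⟩
  rw [pow_mul, hz, hq]
  ring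

theorem nd_mul {a b : ℤ} (ha : ¬ (3 : ℤ) ∣ a) (hb : ¬ (3 : ℤ) ∣ b) : ¬ (3 : ℤ) ∣ a * b := by
  intro h
  rcases Int.prime_three.dvd_or_dvd h with h | h
  · exact ha h
  · exact hb h

theorem nd_pow {a : ℤ} (ha : ¬ (3 : ℤ) ∣ a) (k : ℕ) : ¬ (3 : ℤ) ∣ a ^ k :=
  fun h => ha (Int.prime_three.dvd_of_dvd_pow h)

theorem le_of_dvd {n j : ℕ} {w : ℤ} (hw : ¬ (3 : ℤ) ∣ w) (h : (3 : ℤ) ^ n ∣ 3 ^ j * w) : n ≤ j := by
  by_contra hn
  obtain ⟨k, rfl⟩ : ∃ k, n = j + (k + 1) := ⟨n - j - 1, by omega⟩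
  rw [pow_add] at h
  have := (mul_dvd_mul_iff_left (pow_ne_zero j (by norm_num : (3 : ℤ) ≠ 0))).1 h
  exact hw (dvd_trans (dvd_pow_self 3 (by omega)) this)

theorem val_eq {n r j : ℕ} {a b : ℤ} (hr : r < n) (ha : ¬ (3 : ℤ) ∣ a) (hb : ¬ (3 : ℤ) ∣ b)
    (h : (3 : ℤ) ^ n ∣ 3 ^ r * a + 3 ^ j * b) : j = r := by
  rcases lt_trichotomy j r with hj | hj | hj
  · exfalso
    obtain ⟨k, rfl⟩ : ∃ k, r = j + (k + 1) := ⟨r - j - 1, by omega⟩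
    have e : (3 : ℤ) ^ (j + (k + 1)) * a + 3 ^ j * b = 3 ^ j * (b + 3 * (3 ^ k * a)) := by ring
    rw [e] at h
    have := le_of_dvd (w := b + 3 * (3 ^ k * a)) (by omega) h
    omega
  · exact hj
  · exfalso
    obtain ⟨k, rfl⟩ : ∃ k, j = r + (k + 1) := ⟨j - r - 1, by omega⟩
    have e : (3 : ℤ) ^ r * a + 3 ^ (r + (k + 1)) * b = 3 ^ r * (a + 3 * (3 ^ k * b)) := by ring
    rw [e] at h
    have := le_of_dvd (w := a + 3 * (3 ^ k * b)) (by omega) h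
    omega

theorem split3 (k : ℕ) (hk : k ≠ 0) : ∃ j w : ℕ, ¬ (3 : ℤ) ∣ (w : ℤ) ∧ k = 3 ^ j * w := by
  obtain ⟨j, w, h1, h2⟩ := Nat.exists_eq_pow_mul_and_not_dvd hk 3 (by norm_num)
  exact ⟨j, w, by exact_mod_cast h1, h2⟩

def g (κ : ℤ) (l : List ℕ) (x : ℕ) : ℤ := 2 ^ x * (20 + U κ l) + x + 1 - 3 * V l

theorem g_shift (κ : ℤ) (l : List ℕ) (x j w : ℕ) :
    ∃ z : ℤ, g κ l (x + 2 * (3 ^ j * w)) - g κ l x = 3 ^ j * (2 * w + 3 * z) := by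
  obtain ⟨z, hz⟩ := pow4' j w
  refine ⟨2 ^ x * (w + 3 * z) * (20 + U κ l), ?_⟩
  have e : (2 : ℤ) ^ (x + 2 * (3 ^ j * w)) = 2 ^ x * 4 ^ (3 ^ j * w) := by
    rw [pow_add, pow_mul]; norm_num
  unfold g
  rw [e, hz]
  push_cast
  ring

theorem g_uniq (κ : ℤ) (l : List ℕ) (Y n t t' : ℕ) (ht : t < 3 ^ n) (hle : t' ≤ t)
    (h : (3 : ℤ) ^ n ∣ g κ l (Y + 2 * t)) (h' : (3 : ℤ) ^ n ∣ g κ l (Y + 2 * t')) : t = t' := by
  by_contra hne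
  obtain ⟨j, w, hw, hj⟩ := split3 (t - t') (by omega)
  obtain ⟨z, hz⟩ := g_shift κ l (Y + 2 * t') j w
  have e : Y + 2 * t' + 2 * (3 ^ j * w) = Y + 2 * t := by omega
  rw [e] at hz
  have h2 := dvd_sub h h'
  rw [hz] at h2
  have h3 := le_of_dvd (w := 2 * w + 3 * z) (by omega) h2
  have h4 : 3 ^ n ≤ 3 ^ j := Nat.pow_le_pow_right (by norm_num) h3
  have h5 : w ≠ 0 := by rintro rfl; simp at hw
  have h6 : 3 ^ j ≤ 3 ^ j * w := Nat.le_mul_of_pos_right _ (by omega)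
  omega

noncomputable def lam (n : ℕ) : ℤ := 3 * (1 + 3 * (pow4 n).choose)

theorem lam_spec (n : ℕ) : (4 : ℤ) ^ (3 ^ n) = 1 + 3 ^ n * lam n := by
  rw [(pow4 n).choose_spec, lam]; ring

noncomputable def D (n : ℕ) (l : List ℕ) (x : ℕ) : ℤ := 2 + lam n * (3 * V l - x - 1)

theorem D_inv (n : ℕ) (l : List ℕ) (x : ℕ) : ∃ e : ℤ, (3 : ℤ) ^ n ∣ D n l x * e - 1 := by
  have h : IsCoprime (D n l x) 3 := by
    refine ⟨-1, 1 + (1 + 3 * (pow4 n).choose) * (3 * V l - x - 1), ?_⟩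
    unfold D lam
    ring
  obtain ⟨a, b, hab⟩ := (h.pow_right (n := n))
  exact ⟨a, -b, by linear_combination hab⟩

noncomputable def Ei (n : ℕ) (l : List ℕ) (x : ℕ) : ℤ := (D_inv n l x).choose

theorem Ei_spec (n : ℕ) (l : List ℕ) (x : ℕ) : (3 : ℤ) ^ n ∣ D n l x * Ei n l x - 1 :=
  (D_inv n l x).choose_spec

theorem Ei_nd (n : ℕ) (hn : 1 ≤ n) (l : List ℕ) (x : ℕ) : ¬ (3 : ℤ) ∣ Ei n l x := by
  intro h
  have h1 : (3 : ℤ) ∣ D n l x * Ei n l x - 1 :=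
    dvd_trans (dvd_pow_self 3 (by omega)) (Ei_spec n l x)
  have h2 : (3 : ℤ) ∣ D n l x * Ei n l x := Dvd.dvd.mul_left h _
  omega

noncomputable def al (κ : ℤ) (n : ℕ) (l : List ℕ) (x : ℕ) : ℤ := -(Ei n l x * (g κ l x / 3 ^ n))
noncomputable def be (κ : ℤ) (n : ℕ) (l : List ℕ) (x : ℕ) : ℤ := -(Ei n l x * (2 ^ x * κ ^ l.sum))
noncomputable def ga (n : ℕ) (l : List ℕ) (x : ℕ) : ℤ := 3 * Ei n l x

noncomputable def ph (κ : ℤ) (n : ℕ) (l : List ℕ) (x : ℕ) (u : List ℕ) : ℤ :=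
  al κ n l x + be κ n l x * U κ u + ga n l x * V u

theorem lin (κ : ℤ) (n : ℕ) (l u : List ℕ) (hl : l.length = n) (x y : ℕ)
    (h : (3 : ℤ) ^ (2 * n) ∣ g κ (l ++ u) (x + 2 * (3 ^ n * y))) :
    (3 : ℤ) ^ n ∣ g κ l x ∧ (3 : ℤ) ^ n ∣ ph κ n l x u - y := by
  obtain ⟨q, hq⟩ := bern (3 ^ n * lam n) y
  have e : (2 : ℤ) ^ (x + 2 * (3 ^ n * y)) = 2 ^ x * (1 + y * (3 ^ n * lam n) +
      (3 ^ n * lam n) ^ 2 * q) := by
    rw [← hq, ← lam_spec, ← pow_mul, pow_add, pow_mul]; norm_num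
  set T : ℤ := 3 ^ n with hT
  have hT0 : T ≠ 0 := pow_ne_zero _ (by norm_num)
  have h2 : (3 : ℤ) ^ (2 * n) = T * T := by rw [hT]; ring
  obtain ⟨c, hc⟩ := h
  rw [h2] at hc
  have key : g κ (l ++ u) (x + 2 * (3 ^ n * y)) = g κ l x +
      T * (y * lam n * (2 ^ x * (20 + U κ l)) + 2 ^ x * κ ^ l.sum * U κ u + 2 * y - 3 * V u) +
      T * T * (2 ^ x * (y * lam n * κ ^ l.sum * U κ u + lam n ^ 2 * q *
        (20 + U κ l + T * κ ^ l.sum * U κ u))) := by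
    unfold g
    rw [e, U_append, V_append, hl, ← hT]
    push_cast
    rw [← hT]
    ring
  rw [key] at hc
  set R : ℤ := 2 ^ x * (y * lam n * κ ^ l.sum * U κ u + lam n ^ 2 * q *
        (20 + U κ l + T * κ ^ l.sum * U κ u)) with hR
  set S : ℤ := y * lam n * (2 ^ x * (20 + U κ l)) + 2 ^ x * κ ^ l.sum * U κ u + 2 * y - 3 * V u
    with hS
  have hg : g κ l x = T * (T * c - T * R - S) := by linear_combination hc
  refine ⟨⟨_, hg⟩, ?_⟩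
  have hG : g κ l x / T = T * c - T * R - S := by
    rw [hg, Int.mul_ediv_cancel_left _ hT0]
  obtain ⟨k, hk⟩ := Ei_spec n l x
  rw [← hT] at hk
  have hQ : 2 ^ x * (20 + U κ l) = T * (T * c - T * R - S) - x - 1 + 3 * V l := by
    rw [← hg]; unfold g; ring
  refine ⟨-(Ei n l x * (c - R)) + Ei n l x * y * lam n * (T * c - T * R - S) + y * k, ?_⟩
  unfold ph al be ga
  rw [← hT, hG]
  unfold D at hk
  have hS' : S = y * lam n * (T * (T * c - T * R - S) - x - 1 + 3 * V l) +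
      2 ^ x * κ ^ l.sum * U κ u + 2 * y - 3 * V u := by rw [← hQ]
  linear_combination (Ei n l x) * hS' + y * hk

theorem pair_le (κ : ℤ) (hκ : ¬ (3 : ℤ) ∣ κ) (n Y : ℕ) (l u : List ℕ) (hl : l ∈ W 2 n)
    (hu : u ∈ W 2 n) (hne : l ≠ u) (hs : l.sum = u.sum) (t t' : ℕ) (hle : t' ≤ t)
    (h : (3 : ℤ) ^ n ∣ g κ l (Y + 2 * t)) (h' : (3 : ℤ) ^ n ∣ g κ u (Y + 2 * t')) :
    ∃ (r : ℕ) (w w' : ℤ), l.take r = u.take r ∧ ¬ (3 : ℤ) ∣ w ∧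
      (3 : ℤ) ^ n ∣ be κ n l (Y + 2 * t) - be κ n u (Y + 2 * t') - 3 ^ (r + 1) * w ∧
      (3 : ℤ) ^ n ∣ ga n l (Y + 2 * t) - ga n u (Y + 2 * t') - 3 ^ (r + 2) * w' := by
  rw [mem_W] at hl hu
  obtain ⟨r, w1, w2, hr, htake, hw1, hU, hV⟩ := diff κ hκ l u (by rw [hl.1, hu.1]) hl.2 hu.2 hne
  rw [hl.1] at hr
  set x := Y + 2 * t with hx
  set x' := Y + 2 * t' with hx'
  have hB : g κ l x - g κ u x = 3 ^ r * (2 ^ x * w1 - 3 * w2) := by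
    unfold g
    linear_combination 2 ^ x * hU - 3 * hV
  have hBn : ¬ (3 : ℤ) ∣ 2 ^ x * w1 - 3 * w2 := by
    have := nd_mul (nd_pow (a := 2) (by norm_num) x) hw1
    omega
  have htt : t ≠ t' := by
    intro e
    have e' : x' = x := by rw [hx, hx', e]
    rw [e'] at h'
    have h2 := dvd_sub h h'
    rw [hB] at h2
    have := le_of_dvd hBn h2
    omega
  obtain ⟨j, w, hw, hj⟩ := split3 (t - t') (by omega)
  obtain ⟨z, hz⟩ := g_shift κ u x' j w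
  have e : x' + 2 * (3 ^ j * w) = x := by omega
  rw [e] at hz
  have hjr : j = r := by
    refine val_eq hr hBn (b := 2 * w + 3 * z) (by omega) ?_
    rw [← hB, ← hz]
    have := dvd_sub h h'
    rwa [show g κ l x - g κ u x' = g κ l x - g κ u x + (g κ u x - g κ u x') by ring] at this
  subst hjr
  obtain ⟨z1, hz1⟩ := pow4' j w
  have e2 : (2 : ℤ) ^ x = 2 ^ x' * (1 + 3 ^ (j + 1) * (w + 3 * z1)) := by
    rw [← hz1, ← e, pow_add, pow_mul]; norm_num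
  have ex : (x : ℤ) = x' + 2 * (3 ^ j * w) := by rw [← e]; push_cast; ring
  obtain ⟨k, hk⟩ := Ei_spec n l x
  obtain ⟨k', hk'⟩ := Ei_spec n u x'
  set z0 := (pow4 n).choose with hz0
  have hlam : lam n = 3 * (1 + 3 * z0) := rfl
  have hD : D n l x - D n u x' = 3 ^ (j + 1) * ((1 + 3 * z0) * (3 * w2 - 2 * w)) := by
    unfold D
    rw [hlam, ex]
    linear_combination 9 * (1 + 3 * z0) * hV
  have hD' : D n u x' = 2 + 3 * ((1 + 3 * z0) * (3 * V u - x' - 1)) := by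
    unfold D; rw [hlam]; ring
  set P' : ℤ := 2 ^ x' * κ ^ u.sum with hP'
  have hPn : ¬ (3 : ℤ) ∣ P' := nd_mul (nd_pow (by norm_num) _) (nd_pow hκ _)
  set m : ℤ := (w + 3 * z1) * D n u x' - (1 + 3 * z0) * (3 * w2 - 2 * w) with hm
  have hmn : ¬ (3 : ℤ) ∣ m := by
    have : m = w + 3 * (w + 2 * z1 + (w + 3 * z1) * ((1 + 3 * z0) * (3 * V u - x' - 1))
        - w2 - z0 * (3 * w2 - 2 * w)) := by
      rw [hm, hD']; ring
    omega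
  have hn : 1 ≤ n := by omega
  refine ⟨j, -(Ei n l x * Ei n u x' * (P' * m)),
    -(Ei n l x * Ei n u x' * ((1 + 3 * z0) * (3 * w2 - 2 * w))), htake, ?_, ?_, ?_⟩
  · rw [dvd_neg]
    exact nd_mul (nd_mul (Ei_nd n hn l x) (Ei_nd n hn u x')) (nd_mul hPn hmn)
  · refine ⟨Ei n l x * (2 ^ x * κ ^ u.sum) * k' - Ei n u x' * P' * k, ?_⟩
    unfold be
    rw [hs, ← hP']
    have hP : (2 : ℤ) ^ x * κ ^ u.sum = P' * (1 + 3 ^ (j + 1) * (w + 3 * z1)) := by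
      rw [e2, hP']; ring
    rw [hP]
    linear_combination (Ei n l x * (P' * (1 + 3 ^ (j + 1) * (w + 3 * z1)))) * hk'
      - (Ei n u x' * P') * hk + (Ei n l x * Ei n u x' * P') * hD
  · refine ⟨3 * (Ei n u x' * k - Ei n l x * k'), ?_⟩
    unfold ga
    linear_combination (3 * Ei n u x') * hk - (3 * Ei n l x) * hk'
      - (3 * Ei n l x * Ei n u x') * hD

theorem pair (κ : ℤ) (hκ : ¬ (3 : ℤ) ∣ κ) (n Y : ℕ) (l u : List ℕ) (hl : l ∈ W 2 n)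
    (hu : u ∈ W 2 n) (hne : l ≠ u) (hs : l.sum = u.sum) (t t' : ℕ)
    (h : (3 : ℤ) ^ n ∣ g κ l (Y + 2 * t)) (h' : (3 : ℤ) ^ n ∣ g κ u (Y + 2 * t')) :
    ∃ (r : ℕ) (w w' : ℤ), l.take r = u.take r ∧ ¬ (3 : ℤ) ∣ w ∧
      (3 : ℤ) ^ n ∣ be κ n l (Y + 2 * t) - be κ n u (Y + 2 * t') - 3 ^ (r + 1) * w ∧
      (3 : ℤ) ^ n ∣ ga n l (Y + 2 * t) - ga n u (Y + 2 * t') - 3 ^ (r + 2) * w' := by
  rcases le_total t' t with hle | hle
  · exact pair_le κ hκ n Y l u hl hu hne hs t t' hle h h'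
  · obtain ⟨r, w, w', h1, h2, h3, h4⟩ :=
      pair_le κ hκ n Y u l hu hl hne.symm hs.symm t' t hle h' h
    refine ⟨r, -w, -w', h1.symm, by rwa [dvd_neg], ?_, ?_⟩
    · obtain ⟨c, hc⟩ := h3
      exact ⟨-c, by linear_combination -hc⟩
    · obtain ⟨c, hc⟩ := h4
      exact ⟨-c, by linear_combination -hc⟩

end Pool.Agent.P.MP_aaabff_nt
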