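import Pool.Agent.P.MP_aaabff_nt.Sieve

set_option autoImplicit false

namespace Pool.Agent.P.MP_aaabff_nt

open Finset

section dyn

variable (a b : ℕ → ℕ)
  (ha : ∀ n, a (n + 1) = if 10 * 2 ^ a n - 1 ≤ b n then a n + 1 else a n)
  (hb : ∀ n, b (n + 1) = if 10 * 2 ^ a n - 1 ≤ b n then b n - (10 * 2 ^ a n - 1)
    else 3 * b n + a n + 5)
  (h0 : b 0 < 10 * 2 ^ a 0 - 1)

/-- the linearising coordinate -/
def cc (a b : ℕ → ℕ) (i : ℕ) : ℤ := 2 * b i + a i + 5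

include ha hb in
theorem step_cases (i : ℕ) :
    (a (i + 1) = a i ∧ cc a b (i + 1) = 3 * cc a b i ∧ cc a b i ≤ 20 * 2 ^ a i + a i + 1) ∨
    (a (i + 1) = a i + 1 ∧ cc a b (i + 1) = cc a b i - 20 * 2 ^ a i + 3 ∧
      20 * 2 ^ a i + a i + 3 ≤ cc a b i) := by
  have h1 := ha i
  have h2 := hb i
  have hp : 0 < 2 ^ a i := by positivity
  have hc : ((2 ^ a i : ℕ) : ℤ) = 2 ^ a i := by push_cast; rfl
  unfold cc
  rw [← hc]
  split_ifs at h1 h2 with h
  · right; omega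
  · left; omega

include ha hb h0 in
theorem inv (i : ℕ) : cc a b i ≤ 3 * (20 * 2 ^ a i + a i + 1) := by
  induction i with
  | zero =>
    have hc : ((2 ^ a 0 : ℕ) : ℤ) = 2 ^ a 0 := by push_cast; rfl
    unfold cc
    rw [← hc]
    omega
  | succ i ih =>
    have hp : (0 : ℤ) < 2 ^ a i := by positivity
    rcases step_cases a b ha hb i with ⟨h1, h2, h3⟩ | ⟨h1, h2, h3⟩
    · rw [h1, h2]; linarith
    · rw [h1, h2, pow_succ]; push_cast; linarith

include ha hb h0 in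
theorem back (κ : ℤ) (N x : ℕ) (hκ : (3 : ℤ) ^ N ∣ 2 * κ - 1) : ∀ (L i : ℕ), L ≤ N → a i ≤ x →
    3 ^ L * (20 * 2 ^ a 0 + a 0 + 3 * x + 4) < cc a b i →
    ∃ l ∈ W 2 L, (3 : ℤ) ^ L ∣ cc a b i + 2 ^ a i * U κ l - 3 * V l := by
  intro L
  set B : ℤ := 20 * 2 ^ a 0 + a 0 + 3 * x + 4 with hB
  have hp0 : (0 : ℤ) < 2 ^ a 0 := by positivity
  have hB0 : 0 < B := by positivity
  have hc0 : cc a b 0 ≤ 20 * 2 ^ a 0 + a 0 + 1 := by
    have hc : ((2 ^ a 0 : ℕ) : ℤ) = 2 ^ a 0 := by push_cast; rfl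
    unfold cc
    rw [← hc]
    omega
  induction L with
  | zero => intro i _ _ _; exact ⟨[], by simp [W], by simp⟩
  | succ L ih =>
    intro i hL hx hlt
    have h3 : (1 : ℤ) ≤ 3 ^ L := one_le_pow₀ (by norm_num)
    have hBB : B ≤ 3 ^ L * B := le_mul_of_one_le_left hB0.le h3
    have hlt' : 3 * (3 ^ L * B) < cc a b i := by rw [pow_succ] at hlt; linarith
    cases i with
    | zero => exfalso; have : (0 : ℤ) ≤ x := Int.natCast_nonneg _; linarith
    | succ j =>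
      rcases step_cases a b ha hb j with ⟨h1, h2, _⟩ | ⟨h1, h2, h4⟩
      · obtain ⟨l, hl, c, hc⟩ := ih j (by omega) (by omega) (by linarith)
        rw [mem_W] at hl
        refine ⟨0 :: l, (mem_W _ _ _).2 ⟨by simp [hl.1], by simpa using hl.2⟩, c, ?_⟩
        rw [h1, h2]
        simp only [U, V]
        push_cast
        linear_combination 3 * hc
      · cases j with
        | zero => exfalso; linarith
        | succ k =>
          have hp : (0 : ℤ) < 2 ^ a k := by positivity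
          rcases step_cases a b ha hb k with ⟨h5, h6, _⟩ | ⟨h5, h6, _⟩
          · rw [h5] at h1 h2
            obtain ⟨l, hl, c, hc⟩ := ih k (by omega) (by omega) (by linarith)
            rw [mem_W] at hl
            obtain ⟨e, he⟩ := dvd_trans (pow_dvd_pow (3 : ℤ) (by omega : L ≤ N)) hκ
            refine ⟨1 :: l, (mem_W _ _ _).2 ⟨by simp [hl.1], by simpa using hl.2⟩,
              c + e * 2 ^ a k * U κ l, ?_⟩
            rw [h1, h2, h6]
            simp only [U, V]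
            push_cast
            linear_combination 3 * hc + 3 * 2 ^ a k * U κ l * he
          · exfalso
            have h7 := inv a b ha hb h0 k
            rw [h5, pow_succ] at h2
            have h8 : (a k : ℤ) + 2 ≤ x := by omega
            have h9 : (0 : ℤ) ≤ a 0 := Int.natCast_nonneg _
            linarith

include ha hb h0 in
theorem hit (κ : ℤ) (L i : ℕ) (hκ : (3 : ℤ) ^ L ∣ 2 * κ - 1) (h1 : 2 * a 0 ≤ a i)
    (h2 : 4 * L + 4 ≤ a i) (h3 : b i = 10 * 2 ^ a i - 1 - 1) :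
    ∃ l ∈ W 2 L, (3 : ℤ) ^ L ∣ g κ l (a i) := by
  have hc : cc a b i = 20 * 2 ^ a i + a i + 1 := by
    have hp : 0 < 2 ^ a i := by positivity
    have hc : ((2 ^ a i : ℕ) : ℤ) = 2 ^ a i := by push_cast; rfl
    unfold cc
    rw [← hc]
    omega
  obtain ⟨l, hl, hd⟩ := back a b ha hb h0 κ L (a i) hκ L i le_rfl le_rfl (by
    rw [hc]
    obtain ⟨z, hz⟩ : ∃ z, a i = z + (2 * L + 2) := ⟨a i - (2 * L + 2), by omega⟩
    have e1 : (2 : ℤ) ^ a 0 ≤ 2 ^ z := pow_le_pow_right₀ (by norm_num) (by omega)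
    have e2 : (z : ℤ) < 2 ^ z := by exact_mod_cast Nat.lt_two_pow_self
    have e3 : (3 : ℤ) ^ L ≤ 4 ^ L := pow_le_pow_left₀ (by norm_num) (by norm_num) L
    have e4 : (2 : ℤ) ^ a i = 4 ^ L * (4 * 2 ^ z) := by
      rw [hz, pow_add, pow_add, pow_mul]; norm_num; ring
    have e5 : (20 * 2 ^ a 0 + a 0 + 3 * a i + 4 : ℤ) ≤ 40 * 2 ^ z := by
      have : (a 0 : ℤ) ≤ z := by omega
      have : (a i : ℤ) ≤ 2 * z := by omega
      linarith
    have e6 : (0 : ℤ) < 4 ^ L * 2 ^ z := by positivity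
    calc (3 : ℤ) ^ L * (20 * 2 ^ a 0 + a 0 + 3 * a i + 4) ≤ 4 ^ L * (40 * 2 ^ z) := by gcongr
      _ < 20 * 2 ^ a i + a i + 1 := by
        rw [e4]
        have : (0 : ℤ) ≤ a i := Int.natCast_nonneg _
        nlinarith)
  refine ⟨l, hl, ?_⟩
  rw [hc] at hd
  convert hd using 1
  unfold g
  ring

end dyn

/-- the set of levels at which some orbit started below half that level hits -/
def Lev : Set ℕ := {x | ∃ a b : ℕ → ℕ,
  (∀ n, a (n + 1) = if 10 * 2 ^ a n - 1 ≤ b n then a n + 1 else a n) ∧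
  (∀ n, b (n + 1) = if 10 * 2 ^ a n - 1 ≤ b n then b n - (10 * 2 ^ a n - 1)
    else 3 * b n + a n + 5) ∧ b 0 < 10 * 2 ^ a 0 - 1 ∧
  ∃ i, 2 * a 0 ≤ a i ∧ b i = 10 * 2 ^ a i - 1 - 1 ∧ a i = x}

theorem lev_bound (n J M Y X : ℕ) (hn : J + M + 2 = n) (hX : X ≤ 3 ^ (n + M)) :
    ((Lev ∩ Set.Ico Y (Y + X)).ncard : ℝ) ≤ (8 * n + 4) +
      2 * (4 * (4 ^ n / 3 ^ J) + 24 * ((n + 1) * √(12 ^ n))) := by
  classical
  obtain ⟨κ, hκ⟩ : ∃ κ : ℤ, 2 * κ - 1 = 3 ^ (2 * n) := by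
    obtain ⟨c, hc⟩ : Odd ((3 : ℤ) ^ (2 * n)) := Odd.pow (by decide)
    exact ⟨c + 1, by linarith⟩
  have hκ3 : ¬ (3 : ℤ) ∣ κ := by
    have : (3 : ℤ) ∣ 3 ^ (2 * n) := dvd_pow_self 3 (by omega)
    omega
  set S : ℕ → Finset ℕ := fun Y => (range (3 ^ (n + M))).filter (fun t => ∃ l ∈ W 2 (2 * n),
      (3 : ℤ) ^ (2 * n) ∣ g κ l (Y + 2 * t)) with hS
  have hsub : Lev ∩ Set.Ico Y (Y + X) ⊆ ((range (8 * n + 4) ∪ ((S Y).image (fun t => Y + 2 * t) ∪
      (S (Y + 1)).image (fun t => Y + 1 + 2 * t)) : Finset ℕ) : Set ℕ) := by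
    rintro x ⟨⟨a, b, ha, hb, h0, i, h1, h3, rfl⟩, hx1, hx2⟩
    rw [mem_coe, mem_union, mem_union]
    by_cases h2 : 4 * (2 * n) + 4 ≤ a i
    · right
      obtain ⟨l, hl, hd⟩ := hit a b ha hb h0 κ (2 * n) i (hκ ▸ dvd_refl _) h1 h2 h3
      rcases Nat.even_or_odd' (a i - Y) with ⟨t, ht | ht⟩
      · left
        have e : Y + 2 * t = a i := by omega
        exact mem_image.2 ⟨t, mem_filter.2 ⟨mem_range.2 (by omega), l, hl, e ▸ hd⟩, e⟩
      · right
        have e : Y + 1 + 2 * t = a i := by omega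
        exact mem_image.2 ⟨t, mem_filter.2 ⟨mem_range.2 (by omega), l, hl, e ▸ hd⟩, e⟩
    · left; exact mem_range.2 (by omega)
  have h1 := Set.ncard_le_ncard hsub (Finset.finite_toSet _)
  rw [Set.ncard_coe_finset] at h1
  have h2 : (Lev ∩ Set.Ico Y (Y + X)).ncard ≤ (8 * n + 4) + ((S Y).card + (S (Y + 1)).card) := by
    refine h1.trans ((card_union_le _ _).trans ?_)
    rw [card_range]
    exact Nat.add_le_add_left ((card_union_le _ _).trans
      (Nat.add_le_add card_image_le card_image_le)) _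
  have h3 : ((S Y).card : ℝ) ≤ _ := count κ hκ3 n J M Y hn
  have h4 : ((S (Y + 1)).card : ℝ) ≤ _ := count κ hκ3 n J M (Y + 1) hn
  have h5 : ((Lev ∩ Set.Ico Y (Y + X)).ncard : ℝ) ≤
      (8 * n + 4) + ((S Y).card + (S (Y + 1)).card) := by exact_mod_cast h2
  linarith

theorem lev_bound' (k Y X : ℕ) (hX : X ≤ 3 ^ (1000 * (k + 1))) :
    ((Lev ∩ Set.Ico Y (Y + X)).ncard : ℝ) ≤ 40000 * 3 ^ (606 * (k + 1)) := by
  have h := lev_bound (535 * (k + 1)) (70 * k + 68) (465 * (k + 1)) Y X (by omega)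
    (by rwa [show 535 * (k + 1) + 465 * (k + 1) = 1000 * (k + 1) by ring])
  set K := k + 1 with hK
  set T : ℝ := 3 ^ (606 * K) with hT
  have hK2 : (K : ℝ) ≤ 2 ^ K := by exact_mod_cast Nat.lt_two_pow_self.le
  have hK1 : (1 : ℝ) ≤ 2 ^ K := one_le_pow₀ (by norm_num)
  have h2T : (2 : ℝ) ^ K ≤ T := by
    rw [hT, pow_mul]
    refine pow_le_pow_left₀ (by norm_num) ?_ K
    exact_mod_cast (by decide +kernel : (2 : ℕ) ≤ 3 ^ 606)
  have h1 : (4 : ℝ) ^ (535 * K) / 3 ^ (70 * k + 68) ≤ 9 * T := by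
    rw [div_le_iff₀ (by positivity)]
    have e : 9 * T * 3 ^ (70 * k + 68) = (3 ^ 676) ^ K := by
      rw [hT, ← pow_mul, show 676 * K = 2 + 606 * K + (70 * k + 68) by omega,
        pow_add 3 (2 + 606 * K), pow_add 3 2]
      norm_num
    rw [e, pow_mul]
    refine pow_le_pow_left₀ (by positivity) ?_ K
    exact_mod_cast (by decide +kernel : (4 : ℕ) ^ 535 ≤ 3 ^ 676)
  have h2 : (2 : ℝ) ^ K * √(12 ^ (535 * K)) ≤ T := by
    refine le_of_sq_le_sq ?_ (by positivity)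
    rw [mul_pow, Real.sq_sqrt (by positivity), hT, ← pow_mul, mul_comm K 2, pow_mul, pow_mul,
      ← mul_pow, ← pow_mul 3, show 606 * K * 2 = 1212 * K by ring, pow_mul]
    refine pow_le_pow_left₀ (by positivity) ?_ K
    exact_mod_cast (by decide +kernel : (2 : ℕ) ^ 2 * 12 ^ 535 ≤ 3 ^ 1212)
  have h3 : (0 : ℝ) ≤ √(12 ^ (535 * K)) := Real.sqrt_nonneg _
  have hc : ((535 * K : ℕ) : ℝ) = 535 * (K : ℝ) := by push_cast; rfl
  rw [hc] at h
  generalize √((12 : ℝ) ^ (535 * K)) = R at h h2 h3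
  generalize (4 : ℝ) ^ (535 * K) / 3 ^ (70 * k + 68) = Q at h h1
  clear_value T
  generalize (2 : ℝ) ^ K = P at hK2 hK1 h2T h2
  have h4 : (535 * (K : ℝ) + 1) * R ≤ 536 * (P * R) := by
    rw [← mul_assoc]
    exact mul_le_mul_of_nonneg_right (by linarith only [hK2, hK1]) h3
  linarith only [h, h1, h2, h4, hK2, hK1, h2T]

theorem lev_main : ∃ C : ℝ, ∀ Y X : ℕ, 1 ≤ X →
    ((Lev ∩ Set.Ico Y (Y + X)).ncard : ℝ) ≤ C * (X : ℝ) ^ (0.606 : ℝ) := by
  refine ⟨40000 * 3 ^ 606, fun Y X hX => ?_⟩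
  have hex : ∃ k, X ≤ 3 ^ (1000 * (k + 1)) :=
    ⟨X, ((Nat.lt_pow_self (by norm_num : 1 < 3)).le).trans
      (Nat.pow_le_pow_right (by norm_num) (by omega))⟩
  set k := Nat.find hex with hk
  have h1 := lev_bound' k Y X (Nat.find_spec hex)
  have h2 : 3 ^ (1000 * k) ≤ X := by
    rcases Nat.eq_zero_or_pos k with h | h
    · rw [h]; simpa using hX
    · have := Nat.find_min hex (m := k - 1) (by omega)
      rw [show k - 1 + 1 = k by omega] at this
      omega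
  have h3 : (3 : ℝ) ^ (606 * k) ≤ (X : ℝ) ^ (0.606 : ℝ) := by
    have e : (3 : ℝ) ^ (606 * k) = ((3 : ℝ) ^ (1000 * k)) ^ (0.606 : ℝ) := by
      rw [← Real.rpow_natCast, ← Real.rpow_natCast, ← Real.rpow_mul (by norm_num)]
      congr 1
      push_cast
      ring
    rw [e]
    exact Real.rpow_le_rpow (by positivity) (by exact_mod_cast h2) (by norm_num)
  refine h1.trans ?_
  rw [show 606 * (k + 1) = 606 + 606 * k by ring, pow_add, ← mul_assoc]
  gcongr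

end Pool.Agent.P.MP_aaabff_nt
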