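import Pool.Agent.P.MP_aaabff_nt.Arith

set_option autoImplicit false

namespace Pool.Agent.P.MP_aaabff_nt

open Finset

theorem normsq {ι β : Type} (A : Finset ι) (B : Finset β) (F : ι → β → ℂ) :
    ∑ b ∈ B, ‖∑ a ∈ A, F a b‖ ^ 2 ≤
      ∑ a ∈ A, ∑ a' ∈ A, ‖∑ b ∈ B, F a b * (starRingEnd ℂ) (F a' b)‖ := by
  have h1 : ((∑ b ∈ B, ‖∑ a ∈ A, F a b‖ ^ 2 : ℝ) : ℂ) =
      ∑ a ∈ A, ∑ a' ∈ A, ∑ b ∈ B, F a b * (starRingEnd ℂ) (F a' b) := by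
    push_cast
    have : ∀ b, ((‖∑ a ∈ A, F a b‖ : ℝ) : ℂ) ^ 2 =
        ∑ a ∈ A, ∑ a' ∈ A, F a b * (starRingEnd ℂ) (F a' b) := by
      intro b
      rw [← Complex.mul_conj', map_sum, sum_mul_sum]
    simp only [this]
    rw [sum_comm]
    refine sum_congr rfl fun a _ => ?_
    rw [sum_comm]
  have h2 : ∑ b ∈ B, ‖∑ a ∈ A, F a b‖ ^ 2 = ‖((∑ b ∈ B, ‖∑ a ∈ A, F a b‖ ^ 2 : ℝ) : ℂ)‖ := by
    rw [Complex.norm_real, Real.norm_of_nonneg (sum_nonneg fun _ _ => sq_nonneg _)]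
  rw [h2, h1]
  exact (norm_sum_le _ _).trans (sum_le_sum fun a _ => norm_sum_le _ _)

theorem ls {ι β : Type} (A : Finset ι) (B B' : Finset β) (hB : B ⊆ B') (F : ι → β → ℂ) :
    ‖∑ a ∈ A, ∑ b ∈ B, F a b‖ ^ 2 ≤
      B.card * ∑ a ∈ A, ∑ a' ∈ A, ‖∑ b ∈ B', F a b * (starRingEnd ℂ) (F a' b)‖ := by
  rw [sum_comm]
  calc ‖∑ b ∈ B, ∑ a ∈ A, F a b‖ ^ 2 ≤ (∑ b ∈ B, ‖∑ a ∈ A, F a b‖) ^ 2 :=
        pow_le_pow_left₀ (norm_nonneg _) (norm_sum_le _ _) 2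
    _ ≤ B.card * ∑ b ∈ B, ‖∑ a ∈ A, F a b‖ ^ 2 := sq_sum_le_card_mul_sum_sq
    _ ≤ B.card * ∑ b ∈ B', ‖∑ a ∈ A, F a b‖ ^ 2 :=
        mul_le_mul_of_nonneg_left
          (sum_le_sum_of_subset_of_nonneg hB fun _ _ _ => sq_nonneg _) (Nat.cast_nonneg _)
    _ ≤ _ := mul_le_mul_of_nonneg_left (normsq A B' F) (Nat.cast_nonneg _)

def A (κ : ℤ) (n Y : ℕ) : Finset (List ℕ × ℕ) :=
  (W 2 n ×ˢ range (3 ^ n)).filter (fun a => (3 : ℤ) ^ n ∣ g κ a.1 (Y + 2 * a.2))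

theorem mem_A {κ : ℤ} {n Y : ℕ} {a : List ℕ × ℕ} : a ∈ A κ n Y ↔
    a.1 ∈ W 2 n ∧ a.2 < 3 ^ n ∧ (3 : ℤ) ^ n ∣ g κ a.1 (Y + 2 * a.2) := by
  simp [A, and_assoc]

theorem A_inj {κ : ℤ} {n Y : ℕ} {a a' : List ℕ × ℕ} (h : a ∈ A κ n Y) (h' : a' ∈ A κ n Y)
    (e : a.1 = a'.1) : a = a' := by
  rw [mem_A] at h h'
  refine Prod.ext e ?_
  rcases le_total a'.2 a.2 with hle | hle
  · exact g_uniq κ a.1 Y n _ _ h.2.1 hle h.2.2 (e ▸ h'.2.2)
  · exact (g_uniq κ a.1 Y n _ _ h'.2.1 hle (e ▸ h'.2.2) h.2.2).symm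

theorem card_A (κ : ℤ) (n Y : ℕ) : (A κ n Y).card ≤ 2 ^ n := by
  rw [← card_W 2 n]
  refine card_le_card_of_injOn Prod.fst (fun a ha => (mem_A.1 ha).1) ?_
  intro a ha a' ha' e
  exact A_inj ha ha' e

noncomputable def Ph (κ : ℤ) (n Y : ℕ) (a : List ℕ × ℕ) (u : List ℕ) : ℤ :=
  ph κ n a.1 (Y + 2 * a.2) u

theorem gram (κ : ℤ) (hκ : ¬ (3 : ℤ) ∣ κ) (n Y j : ℕ) (w : ℤ) (hw : ¬ (3 : ℤ) ∣ w)
    (a a' : List ℕ × ℕ) (h : a ∈ A κ n Y) (h' : a' ∈ A κ n Y) (hs : a.1.sum = a'.1.sum) :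
    ‖∑ b ∈ W 3 n, E n (3 ^ j * w * Ph κ n Y a b) *
      (starRingEnd ℂ) (E n (3 ^ j * w * Ph κ n Y a' b))‖ ≤
      if a'.1.take (n - 1 - j) = a.1.take (n - 1 - j) then (3 : ℝ) ^ n else 0 := by
  split_ifs with ht
  · refine (norm_sum_le _ _).trans ?_
    simp [E_norm, card_W]
  · have hne : a.1 ≠ a'.1 := fun e => ht (by rw [e])
    rw [mem_A] at h h'
    obtain ⟨r, w1, w2, h1, h2, ⟨c3, h3⟩, ⟨c4, h4⟩⟩ :=
      pair κ hκ n Y a.1 a'.1 h.1 h'.1 hne hs a.2 a'.2 h.2.2 h'.2.2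
    have hr : r < n - 1 - j := by
      by_contra hr
      apply ht
      have e : n - 1 - j = min (n - 1 - j) r := by omega
      rw [e, ← List.take_take, ← List.take_take, h1]
    have key : ∀ b, E n (3 ^ j * w * Ph κ n Y a b) *
        (starRingEnd ℂ) (E n (3 ^ j * w * Ph κ n Y a' b)) =
        E n (3 ^ j * w * (al κ n a.1 (Y + 2 * a.2) - al κ n a'.1 (Y + 2 * a'.2))) *
        E n (3 ^ (j + r + 1) * (w * w1) * U κ b + 3 ^ (j + r + 1 + 1) * (w * w2) * V b) := by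
      intro b
      rw [E_conj, ← E_add, ← E_add]
      refine E_congr n _ _ ⟨3 ^ j * w * (c3 * U κ b + c4 * V b), ?_⟩
      unfold Ph ph
      linear_combination (3 ^ j * w * U κ b) * h3 + (3 ^ j * w * V b) * h4
    simp only [key, ← mul_sum]
    rw [ort κ hκ n n (j + r + 1) (w * w1) (w * w2) (by omega) (by omega) (nd_mul hw h2)]
    simp

theorem class_bound (κ : ℤ) (hκ : ¬ (3 : ℤ) ∣ κ) (n Y j s : ℕ) (w : ℤ) (hw : ¬ (3 : ℤ) ∣ w) :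
    ‖∑ a ∈ (A κ n Y).filter (fun a => a.1.sum = s), ∑ b ∈ W 2 n,
      E n (3 ^ j * w * Ph κ n Y a b)‖ ≤ √(12 ^ n) * 2 ^ (j + 1) := by
  set As := (A κ n Y).filter (fun a => a.1.sum = s) with hAs
  have h1 := ls As (W 2 n) (W 3 n) (W_sub n) (fun a b => E n (3 ^ j * w * Ph κ n Y a b))
  have h2 : ∀ a ∈ As, ∑ a' ∈ As, ‖∑ b ∈ W 3 n, E n (3 ^ j * w * Ph κ n Y a b) *
      (starRingEnd ℂ) (E n (3 ^ j * w * Ph κ n Y a' b))‖ ≤ 2 ^ (j + 1) * 3 ^ n := by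
    intro a ha
    have ha' := mem_filter.1 ha
    refine (sum_le_sum fun a' h' => gram κ hκ n Y j w hw a a' ha'.1 (mem_filter.1 h').1
      (ha'.2.trans (mem_filter.1 h').2.symm)).trans ?_
    rw [← sum_filter, sum_const, nsmul_eq_mul]
    refine mul_le_mul_of_nonneg_right ?_ (by positivity)
    have h3 : (As.filter (fun a' => a'.1.take (n - 1 - j) = a.1.take (n - 1 - j))).card ≤
        2 ^ (n - (n - 1 - j)) := by
      refine le_trans ?_ (card_take n (n - 1 - j) a.1)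
      refine card_le_card_of_injOn Prod.fst ?_ ?_
      · intro x hx
        have hx' := mem_filter.1 (mem_coe.1 hx)
        exact mem_coe.2 (mem_filter.2 ⟨(mem_A.1 (mem_filter.1 hx'.1).1).1, hx'.2⟩)
      · intro x hx y hy e
        exact A_inj (mem_filter.1 (mem_filter.1 (mem_coe.1 hx)).1).1
          (mem_filter.1 (mem_filter.1 (mem_coe.1 hy)).1).1 e
    have h4 : 2 ^ (n - (n - 1 - j)) ≤ 2 ^ (j + 1) := Nat.pow_le_pow_right (by norm_num) (by omega)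
    exact_mod_cast h3.trans h4
  have h5 : (As.card : ℝ) ≤ 2 ^ n := by
    exact_mod_cast (card_filter_le _ _).trans (card_A κ n Y)
  have h6 := sum_le_sum h2
  rw [sum_const, nsmul_eq_mul] at h6
  rw [card_W] at h1
  have h7 : (12 : ℝ) ^ n = 2 ^ n * (2 ^ n * 3 ^ n) := by
    rw [← mul_pow, ← mul_pow]; norm_num
  have h8 : (1 : ℝ) ≤ 2 ^ (j + 1) := one_le_pow₀ (by norm_num)
  refine le_of_sq_le_sq ?_ (by positivity)
  rw [mul_pow, Real.sq_sqrt (by positivity), h7]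
  refine h1.trans ?_
  push_cast
  calc (2 : ℝ) ^ n * _ ≤ 2 ^ n * (As.card * (2 ^ (j + 1) * 3 ^ n)) :=
        mul_le_mul_of_nonneg_left h6 (by positivity)
    _ ≤ 2 ^ n * (2 ^ n * (2 ^ (j + 1) * 3 ^ n)) := by gcongr
    _ = 2 ^ n * (2 ^ n * 3 ^ n) * (2 ^ (j + 1) * 1) := by ring
    _ ≤ 2 ^ n * (2 ^ n * 3 ^ n) * (2 ^ (j + 1) * 2 ^ (j + 1)) := by gcongr
    _ = _ := by ring

theorem S_bound (κ : ℤ) (hκ : ¬ (3 : ℤ) ∣ κ) (n Y j : ℕ) (w : ℤ) (hw : ¬ (3 : ℤ) ∣ w) :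
    ‖∑ a ∈ A κ n Y, ∑ b ∈ W 2 n, E n (3 ^ j * w * Ph κ n Y a b)‖ ≤
      (n + 1) * (√(12 ^ n) * 2 ^ (j + 1)) := by
  rw [← sum_fiberwise_of_maps_to (s := A κ n Y) (t := range (n + 1)) (g := fun a => a.1.sum)
    (fun a ha => mem_range.2 (Nat.lt_succ_of_le (sum_le_of_W n a.1 (mem_A.1 ha).1)))]
  refine (norm_sum_le _ _).trans ?_
  refine (sum_le_sum fun s _ => class_bound κ hκ n Y j s w hw).trans ?_
  simp

theorem S_triv (κ : ℤ) (n Y : ℕ) (d : ℤ) :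
    ‖∑ a ∈ A κ n Y, ∑ b ∈ W 2 n, E n (d * Ph κ n Y a b)‖ ≤ 4 ^ n := by
  refine (norm_sum_le _ _).trans ?_
  refine (sum_le_sum fun a _ => norm_sum_le _ _).trans ?_
  simp only [E_norm, sum_const, card_W, nsmul_eq_mul, mul_one]
  have h5 : ((A κ n Y).card : ℝ) ≤ 2 ^ n := by exact_mod_cast card_A κ n Y
  have h7 : (4 : ℝ) ^ n = 2 ^ n * 2 ^ n := by rw [← mul_pow]; norm_num
  rw [h7]
  push_cast
  gcongr

theorem card_cong (J j h : ℕ) (hj : j ≤ J) :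
    ((range (3 ^ J)).filter (fun h' : ℕ => (3 : ℤ) ^ j ∣ (h : ℤ) - h')).card ≤ 3 ^ (J - j) := by
  rw [← card_range (3 ^ (J - j))]
  have hp : 0 < 3 ^ j := by positivity
  refine card_le_card_of_injOn (fun x => x / 3 ^ j) ?_ ?_
  · intro x hx
    have hx' := mem_range.1 (mem_filter.1 (mem_coe.1 hx)).1
    refine mem_coe.2 (mem_range.2 ?_)
    rw [Nat.div_lt_iff_lt_mul hp, ← pow_add, Nat.sub_add_cancel hj]
    exact hx'
  · intro x hx y hy e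
    have hx' := (mem_filter.1 (mem_coe.1 hx)).2
    have hy' := (mem_filter.1 (mem_coe.1 hy)).2
    have h1 : (3 : ℤ) ^ j ∣ (y : ℤ) - x := by
      have := dvd_sub hx' hy'
      rwa [show (h : ℤ) - x - (h - y) = y - x by ring] at this
    have h2 : x % 3 ^ j = y % 3 ^ j := by
      have : x ≡ y [MOD 3 ^ j] := by
        rw [Nat.modEq_iff_dvd]; exact_mod_cast h1
      exact this
    have e' : x / 3 ^ j = y / 3 ^ j := e
    rw [← Nat.div_add_mod x (3 ^ j), ← Nat.div_add_mod y (3 ^ j), e', h2]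

theorem geom (J : ℕ) : ∑ j ∈ range J, (2 : ℝ) ^ j * 3 ^ (J - j) ≤ 3 * 3 ^ J := by
  have : ∀ J : ℕ, ∑ j ∈ range J, (2 : ℝ) ^ j * 3 ^ (J - j) = 3 * 3 ^ J - 3 * 2 ^ J := by
    intro J
    induction J with
    | zero => simp
    | succ J ih =>
      rw [sum_range_succ]
      have : ∑ j ∈ range J, (2 : ℝ) ^ j * 3 ^ (J + 1 - j) =
          3 * ∑ j ∈ range J, (2 : ℝ) ^ j * 3 ^ (J - j) := by
        rw [mul_sum]
        refine sum_congr rfl fun j hj => ?_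
        rw [show J + 1 - j = J - j + 1 by have := mem_range.1 hj; omega]
        ring
      rw [this, ih, show J + 1 - J = 1 by omega]
      ring
  rw [this]
  have : (0 : ℝ) ≤ 2 ^ J := by positivity
  linarith

theorem row_bound (κ : ℤ) (hκ : ¬ (3 : ℤ) ∣ κ) (n Y J h : ℕ) (hh : h < 3 ^ J) :
    ∑ h' ∈ range (3 ^ J), ‖∑ a ∈ A κ n Y, ∑ b ∈ W 2 n,
      E n (((h : ℤ) - h') * Ph κ n Y a b)‖ ≤ 4 ^ n + 6 * 3 ^ J * ((n + 1) * √(12 ^ n)) := by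
  set K : ℝ := (n + 1) * √(12 ^ n) with hK
  have hK0 : 0 ≤ K := by positivity
  have h1 : ∀ h' ∈ range (3 ^ J), ‖∑ a ∈ A κ n Y, ∑ b ∈ W 2 n,
      E n (((h : ℤ) - h') * Ph κ n Y a b)‖ ≤ (if h' = h then (4 : ℝ) ^ n else 0) +
      ∑ j ∈ range J, if (3 : ℤ) ^ j ∣ (h : ℤ) - h' then 2 * K * 2 ^ j else 0 := by
    intro h' hh'
    have hnn : ∀ j ∈ range J, (0 : ℝ) ≤ if (3 : ℤ) ^ j ∣ (h : ℤ) - h' then 2 * K * 2 ^ j else 0 := by
      intro j _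
      split_ifs <;> positivity
    by_cases e : h' = h
    · rw [if_pos e]
      exact (S_triv κ n Y _).trans (le_add_of_nonneg_right (sum_nonneg hnn))
    · rw [if_neg e, zero_add]
      have hlt := mem_range.1 hh'
      obtain ⟨j, w, hw, hj, hJ⟩ : ∃ (j : ℕ) (w : ℤ), ¬ (3 : ℤ) ∣ w ∧ (h : ℤ) - h' = 3 ^ j * w ∧
          j < J := by
        obtain ⟨j, w, hw, hj⟩ := split3 ((h : ℤ) - h').natAbs (by omega)
        have h5 : w ≠ 0 := by rintro rfl; simp at hw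
        have h6 : 3 ^ j ≤ 3 ^ j * w := Nat.le_mul_of_pos_right _ (by omega)
        have h7 : 3 ^ j < 3 ^ J := by omega
        have h8 : j < J := (Nat.pow_lt_pow_iff_right (by norm_num)).1 h7
        have h9 : ((((h : ℤ) - h').natAbs : ℕ) : ℤ) = 3 ^ j * w := by rw [hj]; push_cast; ring
        rcases Int.natAbs_eq ((h : ℤ) - h') with h10 | h10
        · exact ⟨j, w, hw, by rw [h10, h9], h8⟩
        · exact ⟨j, -w, by rwa [dvd_neg], by rw [h10, h9]; ring, h8⟩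
      refine le_trans ?_ (single_le_sum hnn (mem_range.2 hJ))
      rw [if_pos ⟨w, hj⟩, hj]
      refine (S_bound κ hκ n Y j w hw).trans (le_of_eq ?_)
      rw [hK]; ring
  refine (sum_le_sum h1).trans ?_
  rw [sum_add_distrib, sum_ite_eq', if_pos (mem_range.2 hh), sum_comm]
  refine add_le_add le_rfl ?_
  have h2 : ∀ j ∈ range J, ∑ h' ∈ range (3 ^ J),
      (if (3 : ℤ) ^ j ∣ (h : ℤ) - (h' : ℕ) then 2 * K * 2 ^ j else 0) ≤
      2 * K * (2 ^ j * 3 ^ (J - j)) := by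
    intro j hj
    rw [← sum_filter, sum_const, nsmul_eq_mul]
    have h3 : (((range (3 ^ J)).filter (fun h' : ℕ => (3 : ℤ) ^ j ∣ (h : ℤ) - h')).card : ℝ) ≤
        3 ^ (J - j) := by exact_mod_cast card_cong J j h (mem_range.1 hj).le
    calc _ ≤ (3 : ℝ) ^ (J - j) * (2 * K * 2 ^ j) := by gcongr
      _ = _ := by ring
  refine (sum_le_sum h2).trans ?_
  rw [← mul_sum]
  calc 2 * K * _ ≤ 2 * K * (3 * 3 ^ J) := by gcongr; exact geom J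
    _ = _ := by ring

theorem fejer (n J M : ℕ) (hn : J + M + 2 = n) (z : ℤ) (y : ℕ) (hy : y < 3 ^ M)
    (hz : (3 : ℤ) ^ n ∣ z - y) : (3 : ℝ) ^ J / 2 ≤ ‖∑ h ∈ range (3 ^ J), E n (h * z)‖ := by
  refine le_trans ?_ (Complex.re_le_norm _)
  rw [Complex.re_sum]
  have h1 : ∀ h ∈ range (3 ^ J), (1 / 2 : ℝ) ≤ (E n ((h : ℕ) * z)).re := by
    intro h hh
    have e : E n (h * z) = E n ((h * y : ℕ) : ℤ) := by
      obtain ⟨c, hc⟩ := hz
      refine E_congr n _ _ ⟨h * c, ?_⟩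
      push_cast
      linear_combination (h : ℤ) * hc
    rw [e, E_eq, Complex.exp_ofReal_mul_I_re, ← Real.cos_pi_div_three]
    have hlt : h * y ≤ 3 ^ J * 3 ^ M := Nat.mul_le_mul (mem_range.1 hh).le hy.le
    have hlt' : ((h * y : ℕ) : ℝ) ≤ 3 ^ J * 3 ^ M := by exact_mod_cast hlt
    have h3 : (3 : ℝ) ^ n = 9 * (3 ^ J * 3 ^ M) := by rw [← hn]; ring
    have hp : (0 : ℝ) < 3 ^ J * 3 ^ M := by positivity
    have h4 : ((h * y : ℕ) : ℝ) / 3 ^ n ≤ 1 / 9 := by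
      rw [h3, div_le_div_iff₀ (by positivity) (by norm_num)]
      linarith
    have h5 : (0 : ℝ) ≤ ((h * y : ℕ) : ℝ) / 3 ^ n := by positivity
    have hpi := Real.pi_pos
    rw [Int.cast_natCast]
    refine Real.cos_le_cos_of_nonneg_of_le_pi (by positivity) (by linarith) ?_
    nlinarith
  refine le_trans (le_of_eq ?_) (sum_le_sum h1)
  simp
  ring

open Classical in
theorem count (κ : ℤ) (hκ : ¬ (3 : ℤ) ∣ κ) (n J M Y : ℕ) (hn : J + M + 2 = n) :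
    (((range (3 ^ (n + M))).filter (fun t => ∃ l ∈ W 2 (2 * n),
      (3 : ℤ) ^ (2 * n) ∣ g κ l (Y + 2 * t))).card : ℝ) ≤
      4 * (4 ^ n / 3 ^ J) + 24 * ((n + 1) * √(12 ^ n)) := by
  set G := (A κ n Y ×ˢ W 2 n).filter
    (fun p => ∃ y : ℕ, y < 3 ^ M ∧ (3 : ℤ) ^ n ∣ Ph κ n Y p.1 p.2 - y) with hG
  have hp3 : 0 < 3 ^ n := by positivity
  have h1 : ((range (3 ^ (n + M))).filter (fun t => ∃ l ∈ W 2 (2 * n),
      (3 : ℤ) ^ (2 * n) ∣ g κ l (Y + 2 * t))).card ≤ G.card := by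
    refine le_trans (card_le_card ?_) (card_image_le (s := G)
      (f := fun p => p.1.2 + 3 ^ n * (Ph κ n Y p.1 p.2 % 3 ^ n).toNat))
    intro t ht
    obtain ⟨ht1, l, hl, hd⟩ := mem_filter.1 ht
    rw [mem_W] at hl
    have hy : t / 3 ^ n < 3 ^ M := by
      rw [Nat.div_lt_iff_lt_mul hp3, ← pow_add, add_comm]; exact mem_range.1 ht1
    have hlen : (l.take n).length = n := by rw [List.length_take, hl.1]; omega
    have e : Y + 2 * t = Y + 2 * (t % 3 ^ n) + 2 * (3 ^ n * (t / 3 ^ n)) := by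
      have := Nat.mod_add_div t (3 ^ n)
      omega
    rw [← List.take_append_drop n l, e] at hd
    obtain ⟨h2, h3⟩ := lin κ n _ _ hlen _ _ hd
    refine mem_image.2 ⟨((l.take n, t % 3 ^ n), l.drop n), mem_filter.2 ⟨mem_product.2
      ⟨mem_A.2 ⟨(mem_W _ _ _).2 ⟨hlen, fun x hx => hl.2 x (List.mem_of_mem_take hx)⟩,
        Nat.mod_lt _ hp3, h2⟩, (mem_W _ _ _).2 ⟨by rw [List.length_drop, hl.1]; omega,
        fun x hx => hl.2 x (List.mem_of_mem_drop hx)⟩⟩, t / 3 ^ n, hy, h3⟩, ?_⟩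
    have h4 : Ph κ n Y (l.take n, t % 3 ^ n) (l.drop n) % 3 ^ n = (t / 3 ^ n : ℕ) := by
      have h5 : t / 3 ^ n < 3 ^ n :=
        hy.trans_le (Nat.pow_le_pow_right (by norm_num) (by omega))
      have h6 : ((t / 3 ^ n : ℕ) : ℤ) % 3 ^ n = (t / 3 ^ n : ℕ) :=
        Int.emod_eq_of_lt (Int.natCast_nonneg _) (by exact_mod_cast h5)
      rw [← h6]
      exact (Int.emod_emod_of_dvd _ (dvd_refl _)).symm.trans
        ((Int.emod_emod_of_dvd _ (dvd_refl _)).trans (Int.modEq_iff_dvd.2 h3).symm)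
    show t % 3 ^ n + 3 ^ n * (Ph κ n Y (l.take n, t % 3 ^ n) (l.drop n) % 3 ^ n).toNat = t
    rw [h4, Int.toNat_natCast, Nat.mod_add_div]
  have h2 : (G.card : ℝ) * ((3 : ℝ) ^ J / 2) ^ 2 ≤
      ∑ p ∈ A κ n Y ×ˢ W 2 n, ‖∑ h ∈ range (3 ^ J), E n (h * Ph κ n Y p.1 p.2)‖ ^ 2 := by
    refine le_trans ?_ (sum_le_sum_of_subset_of_nonneg (filter_subset _ _ : G ⊆ _)
      fun _ _ _ => sq_nonneg _)
    rw [← nsmul_eq_mul, ← sum_const]
    refine sum_le_sum fun p hp => ?_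
    obtain ⟨y, hy, hz⟩ := (mem_filter.1 hp).2
    exact pow_le_pow_left₀ (by positivity) (fejer n J M hn _ y hy hz) 2
  have h3 := normsq (range (3 ^ J)) (A κ n Y ×ˢ W 2 n)
    (fun h p => E n (h * Ph κ n Y p.1 p.2))
  have h4 : ∀ h ∈ range (3 ^ J), ∑ h' ∈ range (3 ^ J), ‖∑ p ∈ A κ n Y ×ˢ W 2 n,
      E n (h * Ph κ n Y p.1 p.2) * (starRingEnd ℂ) (E n (h' * Ph κ n Y p.1 p.2))‖ ≤
      4 ^ n + 6 * 3 ^ J * ((n + 1) * √(12 ^ n)) := by
    intro h hh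
    refine le_trans (le_of_eq ?_) (row_bound κ hκ n Y J h (mem_range.1 hh))
    refine sum_congr rfl fun h' _ => ?_
    rw [sum_product]
    congr 1
    refine sum_congr rfl fun a _ => sum_congr rfl fun b _ => ?_
    rw [E_conj, ← E_add]
    congr 1
    ring
  have h5 := h2.trans (h3.trans (sum_le_sum h4))
  rw [sum_const, card_range, nsmul_eq_mul] at h5
  push_cast at h5
  have hJ : (0 : ℝ) < 3 ^ J := by positivity
  have h6 : (G.card : ℝ) ≤ 4 * (4 ^ n / 3 ^ J) + 24 * ((n + 1) * √(12 ^ n)) := by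
    refine le_of_mul_le_mul_right (h5.trans (le_of_eq ?_)) (by positivity)
    field_simp
    ring
  exact le_trans (by exact_mod_cast h1) h6

end Pool.Agent.P.MP_aaabff_nt
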