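import Mathlib

/-! Two hits that are both soon followed by another hit are far apart. -/

set_option autoImplicit false

namespace Pool.Agent.P.MP_aaabff_nt.Sq

/-- the threshold in the coordinate `c = 2 b + a + 5` -/
def thr (t : ℕ) : ℕ := 20 * 2 ^ t + t + 3

def up (p : ℕ × ℕ) : ℕ × ℕ := if thr p.1 ≤ p.2 then (p.1 + 1, p.2 + 3 - 20 * 2 ^ p.1) else p

/-- one tripling and the level changes after it -/
def ph (p : ℕ × ℕ) : ℕ × ℕ := up (up (p.1, 3 * p.2))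

def hit (x : ℕ) : ℕ × ℕ := (x, 20 * 2 ^ x + x + 1)

/-- the orbit after a hit at level `x` -/
def u (x s : ℕ) : ℕ × ℕ := ph^[s] (x + 2, 3 * x + 9)

theorem up_pos {t c : ℕ} (h : thr t ≤ c) : up (t, c) = (t + 1, c + 3 - 20 * 2 ^ t) := if_pos h
theorem up_neg {t c : ℕ} (h : c < thr t) : up (t, c) = (t, c) := if_neg (not_le.2 h)

theorem lt_pow (t : ℕ) : t < 2 ^ t := Nat.lt_two_pow_self

theorem ph_hit (x : ℕ) : ph (hit x) = (x + 2, 3 * x + 9) := by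
  have h := lt_pow x
  have h1 : thr x ≤ 3 * (20 * 2 ^ x + x + 1) := by rw [thr]; omega
  have h2 : thr (x + 1) ≤ 3 * (20 * 2 ^ x + x + 1) + 3 - 20 * 2 ^ x := by
    rw [thr, pow_succ]; omega
  refine (congrArg up (up_pos h1)).trans ((up_pos h2).trans (Prod.ext rfl ?_))
  simp only [pow_succ]; omega

theorem ph_cases {t c : ℕ} (h : c < thr t) :
    (ph (t, c) = (t, 3 * c) ∧ 3 * c < thr t) ∨
    (thr t ≤ 3 * c ∧ ph (t, c) = (t + 1, 3 * c + 3 - 20 * 2 ^ t) ∧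
      3 * c + 3 - 20 * 2 ^ t < thr (t + 1)) ∨
    (thr t ≤ 3 * c ∧ thr (t + 1) ≤ 3 * c + 3 - 20 * 2 ^ t ∧
      ph (t, c) = (t + 1 + 1, 3 * c + 3 - 20 * 2 ^ t + 3 - 20 * 2 ^ (t + 1)) ∧
      3 * c + 3 - 20 * 2 ^ t + 3 - 20 * 2 ^ (t + 1) < thr (t + 1 + 1)) := by
  rcases lt_or_ge (3 * c) (thr t) with h1 | h1
  · exact .inl ⟨by rw [ph, up_neg h1, up_neg h1], h1⟩
  rcases lt_or_ge (3 * c + 3 - 20 * 2 ^ t) (thr (t + 1)) with h2 | h2
  · exact .inr (.inl ⟨h1, by rw [ph, up_pos h1, up_neg h2], h2⟩)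
  refine .inr (.inr ⟨h1, h2, by rw [ph, up_pos h1, up_pos h2], ?_⟩)
  have := lt_pow t
  simp only [thr, pow_succ] at *
  omega

/-- the invariant -/
def Inv (A M : ℕ) (p : ℕ × ℕ) : Prop :=
  ∃ F G : ℕ, M + 3 * G = p.2 + 20 * 2 ^ A * F ∧ G ≤ F ∧ A ≤ p.1 ∧ (p.1 = A → F = 0) ∧
    (A < p.1 → Odd F)

theorem Inv.up {A M : ℕ} {p : ℕ × ℕ} (h : Inv A M p) : Inv A M (up p) := by
  obtain ⟨t, c⟩ := p
  rcases lt_or_ge c (thr t) with h1 | h1
  · rwa [up_neg h1]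
  obtain ⟨F, G, e, h2, h3, h4, h5⟩ := h
  obtain ⟨i, rfl⟩ := Nat.exists_eq_add_of_le h3
  have h6 : 1 ≤ 2 ^ i := Nat.one_le_two_pow
  rw [up_pos h1]
  refine ⟨F + 2 ^ i, G + 1, ?_, by omega, by dsimp only; omega, fun h => by dsimp only at h; omega,
    fun _ => ?_⟩
  · have : 20 * 2 ^ A * (F + 2 ^ i) = 20 * 2 ^ A * F + 20 * 2 ^ (A + i) := by ring
    rw [thr] at h1
    dsimp only at e ⊢
    omega
  · rcases i with _ | i
    · rw [h4 rfl]; simp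
    · exact (h5 (by dsimp only; omega)).add_even ((Nat.even_pow.2 ⟨even_two, by omega⟩))

theorem Inv.ph {A M : ℕ} {p : ℕ × ℕ} (h : Inv A M p) : Inv A (3 * M) (ph p) := by
  refine Inv.up (Inv.up ?_)
  obtain ⟨F, G, e, h2, h3, h4, h5⟩ := h
  refine ⟨3 * F, 3 * G, ?_, by omega, h3, fun h => by rw [h4 h], fun h => ?_⟩
  · have : 20 * 2 ^ A * (3 * F) = 3 * (20 * 2 ^ A * F) := by ring
    dsimp only
    omega
  · exact (by decide : Odd 3).mul (h5 h)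

theorem u_succ (x s : ℕ) : u x (s + 1) = ph (u x s) := Function.iterate_succ_apply' _ _ _

theorem u_inv (x s : ℕ) : Inv (x + 2) (3 ^ s * (3 * x + 9)) (u x s) := by
  induction s with
  | zero => exact ⟨0, 0, by simp [u], le_rfl, le_rfl, fun _ => rfl, fun h => absurd h (lt_irrefl _)⟩
  | succ s ih => rw [u_succ, pow_succ', mul_assoc]; exact ih.ph

theorem u_lt (x s : ℕ) : (u x s).2 < thr (u x s).1 := by
  induction s with
  | zero =>
    have := lt_pow x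
    simp only [u, Function.iterate_zero, id, thr, pow_succ]
    omega
  | succ s ih =>
    rw [u_succ]
    rcases ph_cases ih with h | h | h
    · rw [h.1]; exact h.2
    · rw [h.2.1]; exact h.2.2
    · rw [h.2.2.1]; exact h.2.2.2

theorem u_step (x s : ℕ) : (u x s).1 ≤ (u x (s + 1)).1 ∧
    ((u x (s + 1)).1 = (u x s).1 → (u x (s + 1)).2 = 3 * (u x s).2) := by
  rw [u_succ]
  rcases ph_cases (u_lt x s) with h | h | h
  · rw [h.1]; exact ⟨le_rfl, fun _ => rfl⟩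
  · rw [h.2.1]; exact ⟨by dsimp only; omega, fun h => by dsimp only at h; omega⟩
  · rw [h.2.2.1]; exact ⟨by dsimp only; omega, fun h => by dsimp only at h; omega⟩

theorem u_mono (x : ℕ) : Monotone fun s => (u x s).1 :=
  monotone_nat_of_le_succ fun s => (u_step x s).1

theorem u_run (x s g : ℕ) (h : (u x (s + g)).1 = (u x s).1) :
    (u x (s + g)).2 = 3 ^ g * (u x s).2 := by
  induction g with
  | zero => simp
  | succ g ih =>
    have h1 : (u x s).1 ≤ (u x (s + g)).1 := u_mono x (by omega)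
    have h2 := u_step x (s + g)
    rw [← add_assoc] at h ⊢
    rw [h2.2 (by omega), ih (by omega)]; ring

theorem sq_le {A : ℕ} (h : 40 ≤ A) : 36 * A ^ 2 * 3 ^ A ≤ 4 ^ A := by
  induction A, h using Nat.le_induction with
  | base => norm_num
  | succ A h ih =>
    have : 3 * (A + 1) ^ 2 ≤ 4 * A ^ 2 := by nlinarith
    calc 36 * (A + 1) ^ 2 * 3 ^ (A + 1) = 36 * (3 * (A + 1) ^ 2) * 3 ^ A := by ring
      _ ≤ 36 * (4 * A ^ 2) * 3 ^ A := by gcongr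
      _ = 4 * (36 * A ^ 2 * 3 ^ A) := by ring
      _ ≤ 4 * 4 ^ A := by gcongr
      _ = 4 ^ (A + 1) := by ring

/-- the orbit after the hit at `x` hits at level `y` -/
def Nx (x y : ℕ) : Prop := ∃ s, u x s = hit y

/-- few level changes during the first triplings -/
theorem lev_le {x y s : ℕ} (hx : 38 ≤ x) (h : Nx x y) (hs : s ≤ x + 2) : (u x s).1 ≤ y + 2 := by
  obtain ⟨s₁, h1⟩ := h
  by_contra! h2
  rcases le_or_gt s s₁ with h3 | h3
  · have : (u x s).1 ≤ (u x s₁).1 := u_mono x h3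
    rw [h1, hit] at this
    dsimp only at this
    omega
  obtain ⟨τ, rfl⟩ := Nat.exists_eq_add_of_lt h3
  have e : u x (s₁ + τ + 1) = u y τ := by
    rw [u, add_comm, add_comm s₁, ← add_assoc, Function.iterate_add_apply, ← u, h1, add_comm,
      Function.iterate_succ_apply, ph_hit, u]
  rw [e] at h2
  obtain ⟨F, G, e1, h4, h5, -, -⟩ := u_inv x s₁
  obtain ⟨F', G', e2, h6, -, -, h7⟩ := u_inv y τ
  rw [h1, hit] at e1 h5
  dsimp only at e1 h5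
  obtain ⟨i, rfl⟩ := Nat.exists_eq_add_of_le h5
  set A := x + 2 with hA
  have h8 : 1 ≤ F' := (h7 h2).pos
  have p1 : 1 ≤ 2 ^ A := Nat.one_le_two_pow
  have p2 : 1 ≤ 2 ^ i := Nat.one_le_two_pow
  have p3 : 1 ≤ 2 ^ (A + i + 2) := Nat.one_le_two_pow
  have q1 : 2 ^ A ≤ 3 ^ s₁ * (6 * A) := by
    have : 2 ^ A ≤ 2 ^ (A + i) := Nat.pow_le_pow_right (by norm_num) (by omega)
    have : 3 ^ s₁ * (3 * x + 9) ≤ 3 ^ s₁ * (6 * A) := by gcongr; omega
    nlinarith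
  have q2 : 2 * (2 ^ A * 2 ^ i) ≤ 3 ^ τ * (6 * A * 2 ^ i) := by
    have := lt_pow i
    have : 3 ^ τ * (3 * (A + i) + 9) ≤ 3 ^ τ * (6 * A * 2 ^ i) := by gcongr; nlinarith
    have e3 : 2 ^ (A + i + 2) = 4 * (2 ^ A * 2 ^ i) := by ring
    have : 17 * 2 ^ (A + i + 2) ≤ 3 ^ τ * (3 * (A + i) + 9) := by nlinarith
    omega
  have q3 : 2 * 2 ^ A ≤ 3 ^ τ * (6 * A) := by
    refine Nat.le_of_mul_le_mul_right ?_ p2
    calc _ = 2 * (2 ^ A * 2 ^ i) := by ring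
      _ ≤ _ := q2
      _ = _ := by ring
  have q4 := Nat.mul_le_mul q1 q3
  have q5 : 3 ^ (s₁ + τ) ≤ 3 ^ A := Nat.pow_le_pow_right (by norm_num) (by omega)
  have q6 := sq_le (A := A) (by omega)
  have q7 : (4 : ℕ) ^ A = 2 ^ A * 2 ^ A := by rw [← mul_pow]; rfl
  have q8 : 3 ^ s₁ * (6 * A) * (3 ^ τ * (6 * A)) ≤ 36 * A ^ 2 * 3 ^ A := by
    calc _ = 36 * A ^ 2 * 3 ^ (s₁ + τ) := by ring
      _ ≤ _ := by gcongr
  nlinarith

theorem lev_gt {x s : ℕ} (hs : 2 * ((x + 2) / 3) + 3 ≤ s) : x + 2 < (u x s).1 := by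
  obtain ⟨F, G, e, h1, h2, h3, -⟩ := u_inv x s
  refine lt_of_le_of_ne h2 fun h => ?_
  have h4 := u_lt x s
  obtain rfl := h3 h.symm
  obtain rfl : G = 0 := by omega
  rw [← h, thr] at h4
  set q := (x + 2) / 3
  have h5 : 2 ^ (x + 2) ≤ 2 ^ (3 * q + 2) := Nat.pow_le_pow_right (by norm_num) (by omega)
  have h6 : 3 ^ (2 * q + 3) ≤ 3 ^ s := Nat.pow_le_pow_right (by norm_num) hs
  have h7 : 8 ^ q ≤ 9 ^ q := Nat.pow_le_pow_left (by norm_num) q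
  have h8 : 2 ^ (3 * q + 2) = 4 * 8 ^ q := by rw [pow_add, pow_mul]; ring
  have h9 : 3 ^ (2 * q + 3) = 27 * 9 ^ q := by rw [pow_add, pow_mul]; ring
  have h10 := lt_pow (x + 2)
  have h11 : 3 ^ s * 9 ≤ 3 ^ s * (3 * x + 9) := by gcongr; omega
  have h12 : 1 ≤ 8 ^ q := Nat.one_le_pow _ _ (by norm_num)
  omega

theorem exists_flat (f : ℕ → ℕ) (n : ℕ) (h : f (n + 1) ≤ f 0 + n) : ∃ j ≤ n, f (j + 1) ≤ f j := by
  by_contra! h1
  have : ∀ j ≤ n + 1, f 0 + j ≤ f j := fun j => by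
    induction j with
    | zero => simp
    | succ j ih => intro hj; have := ih (by omega); have := h1 j (by omega); omega
  have := this (n + 1) le_rfl
  omega

theorem le_lev (x s : ℕ) : x + 2 ≤ (u x s).1 := by
  obtain ⟨F, G, -, -, h, -⟩ := u_inv x s
  exact h

/-- a flat stretch forces a small value at its start -/
theorem small {x s g T : ℕ} (h : (u x (s + g)).1 = (u x s).1) (hT : (u x (s + g)).1 ≤ T) :
    3 ^ g * (u x s).2 ≤ 24 * 2 ^ T := by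
  have h1 := u_lt x (s + g)
  rw [u_run x s g h, thr] at h1
  have h2 := lt_pow (u x (s + g)).1
  have h3 : 2 ^ (u x (s + g)).1 ≤ 2 ^ T := Nat.pow_le_pow_right (by norm_num) hT
  omega

/-- the arithmetic core -/
theorem core {P Q m₁ m₂ S F₁ F₂ G₁ G₂ c₁ c₂ : ℕ} (hP : 0 < P) (hQ : 0 < Q)
    (e₁ : S * m₁ + 3 * G₁ = c₁ + 20 * P * F₁) (e₂ : S * m₂ + 3 * G₂ = c₂ + 20 * (P * Q) * F₂)
    (g₁ : G₁ ≤ F₁) (g₂ : G₂ ≤ F₂) (hS : m₁ * m₂ * S ≤ P * P) (k₁ : m₂ * c₁ ≤ 5 * P)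
    (k₂ : m₁ * c₂ ≤ 5 * P) : m₁ * Q * F₂ = m₂ * F₁ := by
  have hPQ : P ≤ P * Q := Nat.le_mul_of_pos_right _ hQ
  have a₁ : P * F₁ ≤ S * m₁ := by
    have : F₁ ≤ P * F₁ := Nat.le_mul_of_pos_left _ hP
    rw [mul_assoc] at e₁
    omega
  have a₂ : P * F₂ ≤ S * m₂ := by
    have : F₂ ≤ P * F₂ := Nat.le_mul_of_pos_left _ hP
    have : P * F₂ ≤ P * Q * F₂ := Nat.mul_le_mul_right _ hPQ
    rw [mul_assoc] at e₂
    omega
  have b₁ : m₂ * G₁ ≤ P := by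
    refine Nat.le_of_mul_le_mul_left ?_ hP
    calc P * (m₂ * G₁) ≤ P * (m₂ * F₁) := by gcongr
      _ = m₂ * (P * F₁) := by ring
      _ ≤ m₂ * (S * m₁) := by gcongr
      _ = m₁ * m₂ * S := by ring
      _ ≤ _ := hS
  have b₂ : m₁ * G₂ ≤ P := by
    refine Nat.le_of_mul_le_mul_left ?_ hP
    calc P * (m₁ * G₂) ≤ P * (m₁ * F₂) := by gcongr
      _ = m₁ * (P * F₂) := by ring
      _ ≤ m₁ * (S * m₂) := by gcongr
      _ = m₁ * m₂ * S := by ring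
      _ ≤ _ := hS
  have e : 3 * (m₂ * G₁) + m₁ * c₂ + 20 * (P * (m₁ * Q * F₂)) =
      3 * (m₁ * G₂) + m₂ * c₁ + 20 * (P * (m₂ * F₁)) := by
    zify at e₁ e₂ ⊢
    linear_combination (m₂ : ℤ) * e₁ - (m₁ : ℤ) * e₂
  rcases lt_trichotomy (m₁ * Q * F₂) (m₂ * F₁) with h | h | h
  · have := Nat.mul_le_mul_left P (Nat.succ_le_of_lt h)
    rw [Nat.mul_succ] at this
    omega
  · exact h
  · have := Nat.mul_le_mul_left P (Nat.succ_le_of_lt h)
    rw [Nat.mul_succ] at this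
    omega

/-- the pair lemma -/
theorem pair {x D x' y' d g : ℕ} (hx : 38 ≤ x) (hD : D ≤ x) (h1 : Nx x x') (h1' : x' ≤ x + d)
    (h2 : Nx (x + D) y') (h2' : y' ≤ x + D + d) (hg : 5 * (3 * (x + D) + 9) * 2 ^ (D + d) ≤ 3 ^ g)
    (hA : 3 * ((2 * d + 1) * g + 3) ≤ x + 2) : 2 ^ D ∣ x + D + 3 := by
  set s₀ := 2 * ((x + 2) / 3) + 3 with hs₀
  have hs : s₀ + (2 * d + 1) * g ≤ x + 2 := by omega
  have l1 : ∀ s ≤ x + 2, (u x s).1 ≤ x + 2 + d := fun s h => (lev_le hx h1 h).trans (by omega)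
  have l2 : ∀ s ≤ x + 2, (u (x + D) s).1 ≤ x + 2 + (D + d) := fun s h =>
    (lev_le (by omega) h2 (by omega)).trans (by omega)
  obtain ⟨j, hj, hf⟩ := exists_flat (fun j => (u x (s₀ + j * g)).1 + (u (x + D) (s₀ + j * g)).1)
    (2 * d) (by
      have := l1 _ hs
      have := l2 _ hs
      have := le_lev x (s₀ + 0 * g)
      have := le_lev (x + D) (s₀ + 0 * g)
      omega)
  have hσ : s₀ + j * g + g ≤ x + 2 := by
    have := Nat.mul_le_mul_right g (show j + 1 ≤ 2 * d + 1 by omega)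
    rw [add_mul, one_mul] at this
    omega
  rw [add_mul, one_mul, ← add_assoc] at hf
  set σ := s₀ + j * g with hσ'
  have m1 : (u x σ).1 ≤ (u x (σ + g)).1 := u_mono x (by omega)
  have m2 : (u (x + D) σ).1 ≤ (u (x + D) (σ + g)).1 := u_mono (x + D) (by omega)
  have c1 := small (x := x) (s := σ) (g := g) (by omega) (l1 _ hσ)
  have c2 := small (x := x + D) (s := σ) (g := g) (by omega) (l2 _ hσ)
  obtain ⟨F₁, G₁, e₁, g₁, -, -, o₁⟩ := u_inv x σ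
  obtain ⟨F₂, G₂, e₂, g₂, -, -, -⟩ := u_inv (x + D) σ
  have o := o₁ (lev_gt (by omega))
  rw [show x + D + 2 = x + 2 + D by omega, pow_add 2 (x + 2) D] at e₂
  have hE : 0 < 5 * 2 ^ (D + d) := by positivity
  have key : ∀ m c T : ℕ, m ≤ 3 * (x + D) + 9 → T ≤ x + 2 + (D + d) → 3 ^ g * c ≤ 24 * 2 ^ T →
      m * c ≤ 5 * 2 ^ (x + 2) := fun m c T hm hT hc => by
    refine Nat.le_of_mul_le_mul_left ?_ hE
    calc 5 * 2 ^ (D + d) * (m * c) = 5 * m * 2 ^ (D + d) * c := by ring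
      _ ≤ 5 * (3 * (x + D) + 9) * 2 ^ (D + d) * c := by gcongr
      _ ≤ 3 ^ g * c := by gcongr
      _ ≤ 24 * 2 ^ T := hc
      _ ≤ 25 * 2 ^ (x + 2 + (D + d)) := by gcongr <;> norm_num
      _ = _ := by ring
  have e := core (by positivity) (by positivity) e₁ e₂ g₁ g₂ (by
    calc (3 * x + 9) * (3 * (x + D) + 9) * 3 ^ σ ≤ (6 * (x + 2)) * (6 * (x + 2)) * 3 ^ (x + 2) := by
          gcongr <;> omega
      _ = 36 * (x + 2) ^ 2 * 3 ^ (x + 2) := by ring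
      _ ≤ 4 ^ (x + 2) := sq_le (by omega)
      _ = _ := by rw [← mul_pow]; rfl) (key _ _ _ le_rfl (by omega) c1)
    (key _ _ _ (by omega) le_rfl c2)
  have c : Nat.Coprime (2 ^ D) (3 * F₁) :=
    (Nat.coprime_two_left.2 ((by decide : Odd 3).mul o)).pow_left D
  refine c.dvd_of_dvd_mul_left ⟨(3 * x + 9) * F₂, ?_⟩
  calc 3 * F₁ * (x + D + 3) = (3 * (x + D) + 9) * F₁ := by ring
    _ = _ := by rw [← e]; ring

end Pool.Agent.P.MP_aaabff_nt.Sq
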