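import Pool.Agent.P.MP_aaabff_nt.Sq

/-! Counting the hits of one orbit. -/

set_option autoImplicit false

namespace Pool.Agent.P.MP_aaabff_nt.Sq

open Finset
open scoped Classical

/-- one step of the recurrence -/
def st (p : ℕ × ℕ) : ℕ × ℕ :=
  if thr p.1 ≤ p.2 then (p.1 + 1, p.2 + 3 - 20 * 2 ^ p.1) else (p.1, 3 * p.2)

theorem st_pos {t c : ℕ} (h : thr t ≤ c) : st (t, c) = (t + 1, c + 3 - 20 * 2 ^ t) := if_pos h
theorem st_neg {t c : ℕ} (h : c < thr t) : st (t, c) = (t, 3 * c) := if_neg (not_le.2 h)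

theorem link {z : ℕ → ℕ × ℕ} (hz : ∀ n, z (n + 1) = st (z n)) (k : ℕ) :
    ∀ n, (z n).2 < thr (z n).1 → (z (n + k)).2 < thr (z (n + k)).1 →
      ∃ σ, ph^[σ] (z n) = z (n + k) := by
  induction k using Nat.strong_induction_on with
  | _ k ih =>
  intro n h1 h2
  rcases k with _ | k
  · exact ⟨0, rfl⟩
  have fin : ∀ i ≤ k, ph (z n) = z (n + i + 1) → (z (n + i + 1)).2 < thr (z (n + i + 1)).1 →
      ∃ σ, ph^[σ] (z n) = z (n + (k + 1)) := fun i hi e h => by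
    have e2 : n + i + 1 + (k - i) = n + (k + 1) := by omega
    obtain ⟨σ, hσ⟩ := ih (k - i) (by omega) (n + i + 1) h (by rwa [e2])
    exact ⟨σ + 1, by rw [Function.iterate_succ_apply, e, hσ, e2]⟩
  have z1 : z (n + 0 + 1) = ((z n).1, 3 * (z n).2) := (hz n).trans (st_neg h1)
  rcases ph_cases h1 with ⟨e, h⟩ | ⟨h3, e, h⟩ | ⟨h3, h4, e, h⟩
  · exact fin 0 (by omega) (e.trans z1.symm) (by rwa [z1])
  · have z2 := hz (n + 1)
    rw [z1, st_pos h3] at z2
    refine fin 1 ?_ (e.trans z2.symm) (by rwa [z2])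
    rcases k with _ | k
    · rw [show n + (0 + 1) = n + 0 + 1 from rfl, z1] at h2
      exact absurd h2 (not_lt.2 h3)
    · omega
  · have z2 := hz (n + 1)
    rw [z1, st_pos h3] at z2
    have z3 := hz (n + 2)
    rw [z2, st_pos h4] at z3
    refine fin 2 ?_ (e.trans z3.symm) (by rwa [z3])
    rcases k with _ | _ | k
    · rw [show n + (0 + 1) = n + 0 + 1 from rfl, z1] at h2
      exact absurd h2 (not_lt.2 h3)
    · rw [show n + (0 + 1 + 1) = n + 1 + 1 from rfl, z2] at h2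
      exact absurd h2 (not_lt.2 h4)
    · omega

theorem nx_of {z : ℕ → ℕ × ℕ} (hz : ∀ n, z (n + 1) = st (z n)) {x y i j : ℕ} (hi : z i = hit x)
    (hj : z j = hit y) (h : x < y) : Nx x y := by
  have mo : Monotone fun n => (z n).1 := monotone_nat_of_le_succ fun n => by
    rw [hz, st]; split_ifs <;> simp
  have hij : i ≤ j := by
    by_contra! h1
    have : (z j).1 ≤ (z i).1 := mo h1.le
    rw [hi, hj] at this
    exact absurd h (not_lt.2 this)
  obtain ⟨k, rfl⟩ := Nat.exists_eq_add_of_le hij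
  obtain ⟨σ, e⟩ := link hz k i (by rw [hi]; simp [hit, thr]) (by rw [hj]; simp [hit, thr])
  rw [hi, hj] at e
  rcases σ with _ | σ
  · exact absurd (congrArg Prod.fst e) h.ne
  · exact ⟨σ, by rwa [Function.iterate_succ_apply, ph_hit] at e⟩

theorem cnt {S : Finset ℕ} {Y X W L : ℕ} (hW : 0 < W) (hL : 0 < L) (hS : S ⊆ Ico Y (Y + X))
    (h : ∀ x ∈ S, ∀ y ∈ S, x < y → y ≤ x + W → y < x + L) : #S ≤ (X / W + 1) * L := by
  rw [← card_range (X / W + 1), ← card_range L, ← card_product]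
  refine card_le_card_of_injOn (fun x => ((x - Y) / W, x % L)) (fun x hx => ?_) ?_
  · have := mem_Ico.1 (hS hx)
    exact mem_coe.2 (mem_product.2 ⟨mem_range.2 (Nat.lt_succ_of_le
      (Nat.div_le_div_right (by omega))), mem_range.2 (Nat.mod_lt _ hL)⟩)
  have key : ∀ x ∈ S, ∀ y ∈ S, x < y → (x - Y) / W = (y - Y) / W → x % L ≠ y % L :=
    fun x hx y hy hxy e e' => by
      have h1 := mem_Ico.1 (hS hx)
      have h2 := Nat.div_add_mod (x - Y) W
      have h3 := Nat.div_add_mod (y - Y) W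
      have h4 := Nat.mod_lt (y - Y) hW
      rw [e] at h2
      have h5 := h x hx y hy hxy (by omega)
      have := Nat.le_of_dvd (by omega) ((Nat.modEq_iff_dvd' hxy.le).1 e')
      omega
  intro x hx y hy e
  obtain ⟨e1, e2⟩ := Prod.mk.inj e
  rcases lt_trichotomy x y with h1 | h1 | h1
  · exact absurd e2 (key x hx y hy h1 e1)
  · exact h1
  · exact absurd e2.symm (key y hy x hx h1 e1.symm)

theorem pow4_le {l : ℕ} (h : 40 ≤ l) : 36 * (l + 7) ^ 4 ≤ 2 ^ l := by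
  induction l, h using Nat.le_induction with
  | base => norm_num
  | succ l h ih =>
    have h1 : 5 * (l + 1 + 7) ^ 2 ≤ 7 * (l + 7) ^ 2 := by nlinarith
    have h2 := Nat.mul_le_mul h1 h1
    have e1 : 5 * (l + 1 + 7) ^ 2 * (5 * (l + 1 + 7) ^ 2) = 25 * (l + 1 + 7) ^ 4 := by ring
    have e2 : 7 * (l + 7) ^ 2 * (7 * (l + 7) ^ 2) = 49 * (l + 7) ^ 4 := by ring
    rw [pow_succ 2]
    omega

theorem loc_nat {H : ℕ → Prop} (hH : ∀ x y, H x → H y → x < y → Nx x y) {Y X r l : ℕ}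
    (hX : X ≤ Y) (hl : 40 ≤ l) (hY : Y < 2 ^ (l + 1)) (hr : (l + 7) ^ 2 ≤ r) (hr' : 36 * r ^ 2 ≤ Y) :
    #{x ∈ Ico Y (Y + X) | H x} ≤ 3 * (X / r) + l + 9 := by
  set L := l + 7 with hL
  have hL1 : L ≤ r := by nlinarith
  have hY1 : 38 ≤ Y := by nlinarith
  have hp : 2 ^ L = 64 * 2 ^ (l + 1) := by rw [hL]; ring
  have PL : ∀ d W : ℕ, 3 * ((2 * d + 1) * (W + d + L) + 3) ≤ Y → ∀ x ∈ Ico Y (Y + X),
      ∀ y ∈ Ico Y (Y + X), H x → H y → (∃ x', H x' ∧ x < x' ∧ x' ≤ x + d) →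
      (∃ y', H y' ∧ y < y' ∧ y' ≤ y + d) → x < y → y ≤ x + W → y < x + L := by
    rintro d W hd x hx y hy h1 h2 ⟨x', a1, a2, a3⟩ ⟨y', b1, b2, b3⟩ hxy hW
    obtain ⟨D, rfl⟩ := Nat.exists_eq_add_of_le hxy.le
    rw [mem_Ico] at hx hy
    have := pair (g := D + d + L) (by omega) (by omega) (hH _ _ h1 a1 a2) a3 (hH _ _ h2 b1 b2) b3
      (by calc 5 * (3 * (x + D) + 9) * 2 ^ (D + d) ≤ 2 ^ L * 2 ^ (D + d) := by gcongr; omega
            _ = 2 ^ (D + d + L) := by ring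
            _ ≤ _ := Nat.pow_le_pow_left (by norm_num) _)
      (by have := Nat.mul_le_mul_left (2 * d + 1) (show D + d + L ≤ W + d + L by omega)
          omega)
    have h3 := Nat.le_of_dvd (by omega) this
    have h4 : 2 ^ D < 2 ^ L := by omega
    have := (Nat.pow_lt_pow_iff_right (by norm_num)).1 h4
    omega
  set S := {x ∈ Ico Y (Y + X) | H x}
  set N : ℕ → ℕ → Prop := fun d x => ∃ x', H x' ∧ x < x' ∧ x' ≤ x + d
  have sub : S ⊆ Ico Y (Y + X) := filter_subset _ _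
  have c1 : #{x ∈ S | ¬ N r x} ≤ (X / r + 1) * 1 :=
    cnt (by omega) one_pos ((filter_subset _ _).trans sub) fun x hx y hy h1 h2 =>
      absurd ⟨y, (mem_filter.1 (mem_filter.1 hy).1).2, h1, h2⟩ (mem_filter.1 hx).2
  have c2 : #{x ∈ S | N r x ∧ ¬ N L x} ≤ (X / r + 1) * 1 :=
    cnt (by omega) one_pos ((filter_subset _ _).trans sub) fun x hx y hy h1 h2 => by
      simp only [S, mem_filter] at hx hy
      exact absurd ⟨y, hy.1.2, h1, (PL r r (by nlinarith) x hx.1.1 y hy.1.1 hx.1.2 hy.1.2 hx.2.1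
        hy.2.1 h1 h2).le⟩ hx.2.2
  have c3 : #{x ∈ S | N L x} ≤ (X / (L * r) + 1) * L :=
    cnt (Nat.mul_pos (by omega) (by omega)) (by omega) ((filter_subset _ _).trans sub) fun x hx y hy h1 h2 => by
      simp only [S, mem_filter] at hx hy
      refine PL L (L * r) ?_ x hx.1.1 y hy.1.1 hx.1.2 hy.1.2 hx.2 hy.2 h1 h2
      have : (2 * L + 1) * (L * r + L + L) ≤ 3 * L * (L * r + L + L) := by gcongr; omega
      have : L ^ 2 * (r + 2) ≤ r * (r + 2) := by gcongr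
      nlinarith
  have c4 : X / (L * r) * L ≤ X / r := by
    rw [mul_comm L r, ← Nat.div_div_eq_div_mul]; exact Nat.div_mul_le_self _ _
  have c5 : S ⊆ {x ∈ S | ¬ N r x} ∪ {x ∈ S | N r x ∧ ¬ N L x} ∪ {x ∈ S | N L x} := fun x hx => by
    simp only [mem_union, mem_filter (s := S)]
    by_cases h1 : N L x
    · exact .inr ⟨hx, h1⟩
    by_cases h2 : N r x
    · exact .inl (.inr ⟨hx, h2, h1⟩)
    · exact .inl (.inl ⟨hx, h2⟩)
  have c6 := (card_le_card c5).trans ((card_union_le _ _).trans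
    (Nat.add_le_add_right (card_union_le _ _) _))
  rw [add_mul, one_mul] at c3
  omega

theorem loc {H : ℕ → Prop} (hH : ∀ x y, H x → H y → x < y → Nx x y) {Y X : ℕ} (hY : 1 ≤ Y)
    (hX : X ≤ Y) : (#{x ∈ Ico Y (Y + X) | H x} : ℝ) ≤ 2 ^ 20 * (X / √Y + Real.log Y) := by
  have h0 : 0 ≤ Real.log Y := Real.log_natCast_nonneg Y
  have h1 : 0 < √(Y : ℝ) := Real.sqrt_pos.2 (by exact_mod_cast hY)
  have h2 : 0 ≤ X / √(Y : ℝ) := by positivity
  rcases lt_or_ge Y (2 ^ 40) with h | h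
  · have h3 : #{x ∈ Ico Y (Y + X) | H x} ≤ X := (card_filter_le _ _).trans (by simp)
    have h4 : √(Y : ℝ) ≤ 2 ^ 20 := Real.sqrt_le_iff.2 ⟨by positivity, by exact_mod_cast h.le⟩
    calc _ ≤ (X : ℝ) := by exact_mod_cast h3
      _ = √Y * (X / √Y) := by field_simp
      _ ≤ 2 ^ 20 * (X / √Y + Real.log Y) := by gcongr; linarith
  set l := Nat.log 2 Y
  set r := Nat.sqrt Y / 6
  have hl : 40 ≤ l := Nat.le_log_of_pow_le (by norm_num) h
  have hl' : 2 ^ l ≤ Y := Nat.pow_log_le_self 2 (by omega)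
  have hr : (l + 7) ^ 2 ≤ r := by
    rw [Nat.le_div_iff_mul_le (by norm_num), Nat.le_sqrt']
    calc _ = 36 * (l + 7) ^ 4 := by ring
      _ ≤ _ := (pow4_le hl).trans hl'
  have h3 := loc_nat hH hX hl (Nat.lt_pow_succ_log_self (by norm_num) Y) hr (by
    have := Nat.sqrt_le' Y
    have : (6 * r) ^ 2 ≤ Nat.sqrt Y ^ 2 := Nat.pow_le_pow_left (by omega) 2
    nlinarith)
  have hr1 : 1 ≤ r := le_trans (Nat.one_le_pow _ _ (by omega)) hr
  have h4 : √(Y : ℝ) ≤ 12 * r := Real.sqrt_le_iff.2 ⟨by positivity, by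
    have h5 := Nat.lt_succ_sqrt' Y
    have : (Nat.sqrt Y).succ ^ 2 ≤ (12 * r) ^ 2 := Nat.pow_le_pow_left (by omega) 2
    exact_mod_cast (h5.le.trans this)⟩
  have h5 : ((X / r : ℕ) : ℝ) ≤ 12 * (X / √Y) := by
    have : (0 : ℝ) < r := by exact_mod_cast hr1
    refine Nat.cast_div_le.trans ?_
    rw [← mul_div_assoc, div_le_div_iff₀ this h1]
    calc _ ≤ X * (12 * (r : ℝ)) := by gcongr
      _ = _ := by ring
  have h6 : (l : ℝ) ≤ 2 * Real.log Y := by
    have : Real.log ((2 : ℝ) ^ l) ≤ Real.log Y :=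
      Real.log_le_log (by positivity) (by exact_mod_cast hl')
    rw [Real.log_pow] at this
    have := Real.log_two_gt_d9
    have : (0 : ℝ) ≤ l := by positivity
    nlinarith
  have h7 : (40 : ℝ) ≤ l := by exact_mod_cast hl
  have h8 : (#{x ∈ Ico Y (Y + X) | H x} : ℝ) ≤ 3 * (X / r : ℕ) + l + 9 := by exact_mod_cast h3
  linarith

theorem glob {H : ℕ → Prop} (hH : ∀ x y, H x → H y → x < y → Nx x y) (X : ℕ) :
    (#{x ∈ range X | H x} : ℝ) ≤ 15 * 2 ^ 20 * √X := by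
  induction X using Nat.strong_induction_on with
  | _ X ih =>
  have h0 := Real.sqrt_nonneg X
  have e0 := Real.mul_self_sqrt (Nat.cast_nonneg X : (0 : ℝ) ≤ X)
  rcases le_or_gt X 2 with h | h
  · have h3 : #{x ∈ range X | H x} ≤ X := (card_filter_le _ _).trans (by simp)
    have h4 : √(X : ℝ) ≤ 2 := Real.sqrt_le_iff.2 ⟨by positivity, by exact_mod_cast (by omega)⟩
    have h5 : (#{x ∈ range X | H x} : ℝ) ≤ X := by exact_mod_cast h3
    nlinarith
  set Y := (X + 1) / 2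
  have h1 := ih Y (by omega)
  have h2 := loc hH (Y := Y) (X := Y) (by omega) le_rfl
  have h3 : {x ∈ range X | H x} ⊆ {x ∈ range Y | H x} ∪ {x ∈ Ico Y (Y + Y) | H x} := fun x hx => by
    simp only [mem_union, mem_filter, mem_range, mem_Ico] at hx ⊢
    rcases lt_or_ge x Y with h | h
    · exact .inl ⟨h, hx.2⟩
    · exact .inr ⟨⟨h, by omega⟩, hx.2⟩
  have h4 : (#{x ∈ range X | H x} : ℝ) ≤ #{x ∈ range Y | H x} + #{x ∈ Ico Y (Y + Y) | H x} := by
    exact_mod_cast (card_le_card h3).trans (card_union_le _ _)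
  have hY : (0 : ℝ) < Y := by exact_mod_cast (by omega : 0 < Y)
  have h5 : Real.log Y ≤ 2 * √Y := by
    have := Real.log_le_sub_one_of_pos (Real.sqrt_pos.2 hY)
    rw [Real.log_sqrt hY.le] at this
    linarith
  have h6 : √(Y : ℝ) ≤ 5 / 6 * √X := Real.sqrt_le_iff.2 ⟨by positivity, by
    have : (3 : ℝ) * Y ≤ 2 * X := by exact_mod_cast (by omega : 3 * Y ≤ 2 * X)
    nlinarith⟩
  rw [Real.div_sqrt] at h2
  linarith

theorem both {H : ℕ → Prop} (hH : ∀ x y, H x → H y → x < y → Nx x y) {Y Z : ℕ} (h : Y ≤ Z) :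
    (#{x ∈ Ico Y Z | H x} : ℝ) ≤ 60 * 2 ^ 20 * (√Z - √Y + Real.log (Y + 1)) := by
  have y0 : (0 : ℝ) ≤ Y := Nat.cast_nonneg Y
  have h0 : 0 ≤ Real.log (Y + 1) := Real.log_nonneg (by linarith)
  have h1 := Real.sqrt_nonneg Y
  have h2 : √(Y : ℝ) ≤ √Z := Real.sqrt_le_sqrt (by exact_mod_cast h)
  have e1 := Real.mul_self_sqrt y0
  have e2 := Real.mul_self_sqrt (Nat.cast_nonneg Z : (0 : ℝ) ≤ Z)
  rcases le_or_gt (2 * Y) Z with h3 | h3
  · have h4 : (#{x ∈ Ico Y Z | H x} : ℝ) ≤ #{x ∈ range Z | H x} := by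
      exact_mod_cast card_le_card (filter_subset_filter _ fun x hx =>
        mem_range.2 (mem_Ico.1 hx).2)
    have h5 : √(Y : ℝ) ≤ 3 / 4 * √Z := Real.sqrt_le_iff.2 ⟨by positivity, by
      have : (2 : ℝ) * Y ≤ Z := by exact_mod_cast h3
      nlinarith⟩
    have := glob hH Z
    linarith
  obtain ⟨X, rfl⟩ := Nat.exists_eq_add_of_le h
  have y1 : (0 : ℝ) < Y := by exact_mod_cast (by omega : 0 < Y)
  have h4 := loc hH (Y := Y) (X := X) (by omega) (by omega)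
  have h5 : Real.log Y ≤ Real.log (Y + 1) := Real.log_le_log y1 (by linarith)
  have h6 : √((Y + X : ℕ) : ℝ) ≤ 2 * √Y := Real.sqrt_le_iff.2 ⟨by positivity, by
    have : ((Y + X : ℕ) : ℝ) ≤ 2 * Y := by exact_mod_cast h3.le
    nlinarith⟩
  have h7 : X / √(Y : ℝ) ≤ 3 * (√((Y + X : ℕ) : ℝ) - √Y) := by
    rw [div_le_iff₀ (Real.sqrt_pos.2 y1)]
    have : ((Y + X : ℕ) : ℝ) = Y + X := by push_cast; rfl
    nlinarith
  linarith

theorem main {a b : ℕ → ℕ} (ha : ∀ n, a (n + 1) = if 10 * 2 ^ a n - 1 ≤ b n then a n + 1 else a n)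
    (hb : ∀ n, b (n + 1) =
      if 10 * 2 ^ a n - 1 ≤ b n then b n - (10 * 2 ^ a n - 1) else 3 * b n + a n + 5) (x y : ℕ)
    (hx : ∃ i, a i = x ∧ b i = 10 * 2 ^ a i - 1 - 1) (hy : ∃ i, a i = y ∧ b i = 10 * 2 ^ a i - 1 - 1)
    (h : x < y) : Nx x y := by
  have e : ∀ i, b i = 10 * 2 ^ a i - 1 - 1 → (a i, 2 * b i + a i + 5) = hit (a i) := fun i h => by
    have := lt_pow (a i)
    exact Prod.ext rfl (by simp only [hit]; omega)
  obtain ⟨i, rfl, hi⟩ := hx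
  obtain ⟨j, rfl, hj⟩ := hy
  refine nx_of (z := fun n => (a n, 2 * b n + a n + 5)) (fun n => ?_) (e i hi) (e j hj) h
  have := lt_pow (a n)
  rw [ha, hb]
  split_ifs with h1
  · rw [st_pos (by rw [thr]; omega)]
    exact Prod.ext rfl (by dsimp only; omega)
  · rw [st_neg (by rw [thr]; omega)]
    exact Prod.ext rfl (by dsimp only; omega)

end Pool.Agent.P.MP_aaabff_nt.Sq
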