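import Mathlib

set_option autoImplicit false

namespace Pool.Agent.P.MP_aaabff_nt

open Finset

/-- digit strings of length `n` with digits below `d` -/
def W (d : ℕ) : ℕ → Finset (List ℕ)
  | 0 => {[]}
  | n + 1 => (range d ×ˢ W d n).image (fun p => p.1 :: p.2)

theorem mem_W (d : ℕ) : ∀ (n : ℕ) (l : List ℕ), l ∈ W d n ↔ l.length = n ∧ ∀ x ∈ l, x < d := by
  intro n
  induction n with
  | zero =>
    intro l
    simp only [W, mem_singleton, List.length_eq_zero_iff]
    constructor
    · rintro rfl; simp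
    · exact fun h => h.1
  | succ n ih =>
    intro l
    simp only [W, mem_image, mem_product, mem_range, Prod.exists]
    constructor
    · rintro ⟨a, t, ⟨ha, ht⟩, rfl⟩
      rw [ih] at ht
      refine ⟨by simp [ht.1], ?_⟩
      intro x hx
      rcases List.mem_cons.1 hx with rfl | hx
      · exact ha
      · exact ht.2 x hx
    · rintro ⟨h1, h2⟩
      cases l with
      | nil => simp at h1
      | cons a t =>
        refine ⟨a, t, ⟨h2 a (by simp), (ih t).2 ⟨by simpa using h1, fun x hx => h2 x (by simp [hx])⟩⟩, rfl⟩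

theorem sum_W_succ {M : Type} [AddCommMonoid M] (d n : ℕ) (F : List ℕ → M) :
    ∑ l ∈ W d (n + 1), F l = ∑ a ∈ range d, ∑ t ∈ W d n, F (a :: t) := by
  rw [W, sum_image, sum_product]
  rintro ⟨a, t⟩ _ ⟨b, u⟩ _ h
  simp only [List.cons.injEq] at h
  exact Prod.ext h.1 h.2

theorem card_W (d n : ℕ) : (W d n).card = d ^ n := by
  induction n with
  | zero => simp [W]
  | succ n ih =>
    rw [card_eq_sum_ones, sum_W_succ]
    simp [ih, pow_succ, mul_comm]

theorem W_sub (n : ℕ) : W 2 n ⊆ W 3 n := by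
  intro l hl
  rw [mem_W] at hl ⊢
  exact ⟨hl.1, fun x hx => by have := hl.2 x hx; omega⟩

theorem sum_le_of_W (n : ℕ) (l : List ℕ) (hl : l ∈ W 2 n) : l.sum ≤ n := by
  rw [mem_W] at hl
  have := List.sum_le_card_nsmul l 1 (fun x hx => by have := hl.2 x hx; omega)
  simpa [hl.1] using this

theorem card_take (n k : ℕ) (l : List ℕ) :
    ((W 2 n).filter (fun u => u.take k = l.take k)).card ≤ 2 ^ (n - k) := by
  rw [← card_W 2 (n - k)]
  refine card_le_card_of_injOn (fun u => u.drop k) ?_ ?_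
  · intro u hu
    simp only [coe_filter, Set.mem_ofPred_eq, mem_W] at hu
    simp only [mem_coe, mem_W, List.length_drop, hu.1.1, true_and]
    exact fun x hx => hu.1.2 x (List.mem_of_mem_drop hx)
  · intro u hu v hv h
    simp only [coe_filter, Set.mem_ofPred_eq] at hu hv
    have h' : u.drop k = v.drop k := h
    rw [← List.take_append_drop k u, ← List.take_append_drop k v, hu.2, hv.2, h']

def U (κ : ℤ) : List ℕ → ℤ
  | [] => 0
  | δ :: t => 10 * δ + 3 * κ ^ δ * U κ t

def V : List ℕ → ℤ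
  | [] => 0
  | δ :: t => δ + 3 * V t

theorem U_append (κ : ℤ) (l u : List ℕ) :
    U κ (l ++ u) = U κ l + 3 ^ l.length * κ ^ l.sum * U κ u := by
  induction l with
  | nil => simp [U]
  | cons a t ih => simp only [List.cons_append, U, ih, List.length_cons, List.sum_cons]; ring

theorem V_append (l u : List ℕ) : V (l ++ u) = V l + 3 ^ l.length * V u := by
  induction l with
  | nil => simp [V]
  | cons a t ih => simp only [List.cons_append, V, ih, List.length_cons]; ring

theorem diff (κ : ℤ) (hκ : ¬ (3 : ℤ) ∣ κ) : ∀ (l u : List ℕ), l.length = u.length →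
    (∀ x ∈ l, x < 2) → (∀ x ∈ u, x < 2) → l ≠ u →
    ∃ (r : ℕ) (w w' : ℤ), r < l.length ∧ l.take r = u.take r ∧ ¬ (3 : ℤ) ∣ w ∧
      U κ l - U κ u = 3 ^ r * w ∧ V l - V u = 3 ^ r * w' := by
  intro l
  induction l with
  | nil =>
    intro u h _ _ hne
    cases u with
    | nil => exact absurd rfl hne
    | cons b v => simp at h
  | cons a t ih =>
    intro u h hl hu hne
    cases u with
    | nil => simp at h
    | cons b v =>
      by_cases hab : a = b
      · subst hab
        obtain ⟨r, w, w', h1, h2, h3, h4, h5⟩ := ih v (by simpa using h)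
          (fun x hx => hl x (by simp [hx])) (fun x hx => hu x (by simp [hx]))
          (fun e => hne (by rw [e]))
        refine ⟨r + 1, κ ^ a * w, w', by simpa using h1, by simp [h2], ?_, ?_, ?_⟩
        · intro hd
          rcases (Int.prime_three.dvd_or_dvd hd) with hd | hd
          · exact hκ (Int.prime_three.dvd_of_dvd_pow hd)
          · exact h3 hd
        · simp only [U]; linear_combination 3 * κ ^ a * h4
        · simp only [V]; linear_combination 3 * h5
      · refine ⟨0, U κ (a :: t) - U κ (b :: v), V (a :: t) - V (b :: v), by simp, by simp, ?_,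
          by simp, by simp⟩
        have ha := hl a (by simp)
        have hb := hu b (by simp)
        simp only [U]
        intro hd
        have : (3 : ℤ) ∣ 10 * (a : ℤ) - 10 * b := by
          have e : 10 * (a : ℤ) - 10 * b = (10 * a + 3 * κ ^ a * U κ t - (10 * b + 3 * κ ^ b * U κ v))
              - 3 * (κ ^ a * U κ t - κ ^ b * U κ v) := by ring
          rw [e]; exact dvd_sub hd (dvd_mul_right _ _)
        omega

/-- additive character modulo `3 ^ n` -/
noncomputable def E (n : ℕ) (z : ℤ) : ℂ := Complex.exp (2 * Real.pi * Complex.I * (z / 3 ^ n))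

theorem E_add (n : ℕ) (y z : ℤ) : E n (y + z) = E n y * E n z := by
  unfold E
  rw [← Complex.exp_add]
  congr 1
  push_cast
  ring

theorem E_mul_pow (n : ℕ) (z : ℤ) : E n (3 ^ n * z) = 1 := by
  unfold E
  have h : (3 : ℂ) ^ n ≠ 0 := pow_ne_zero _ (by norm_num)
  have : 2 * (Real.pi : ℂ) * Complex.I * ((((3 : ℤ) ^ n * z : ℤ) : ℂ) / 3 ^ n)
      = z * (2 * Real.pi * Complex.I) := by
    push_cast
    field_simp
  rw [this, Complex.exp_int_mul_two_pi_mul_I]

theorem E_congr (n : ℕ) (y z : ℤ) (h : (3 : ℤ) ^ n ∣ y - z) : E n y = E n z := by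
  obtain ⟨c, hc⟩ := h
  have : y = z + 3 ^ n * c := by linear_combination hc
  rw [this, E_add, E_mul_pow, mul_one]

theorem E_eq (n : ℕ) (z : ℤ) :
    E n z = Complex.exp (((2 * Real.pi * (z / 3 ^ n) : ℝ) : ℂ) * Complex.I) := by
  unfold E
  congr 1
  push_cast
  ring

theorem E_norm (n : ℕ) (z : ℤ) : ‖E n z‖ = 1 := by
  rw [E_eq, Complex.norm_exp_ofReal_mul_I]

theorem E_conj (n : ℕ) (z : ℤ) : (starRingEnd ℂ) (E n z) = E n (-z) := by
  rw [E_eq, E_eq, ← Complex.exp_conj]
  congr 1
  simp only [map_mul, Complex.conj_ofReal, Complex.conj_I]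
  push_cast
  ring

theorem E_three (j : ℕ) (w : ℤ) (hw : ¬ (3 : ℤ) ∣ w) :
    ∑ a ∈ range 3, E (j + 1) (3 ^ j * w * (a : ℕ)) = 0 := by
  set ω := E (j + 1) (3 ^ j * w) with hω
  have h1 : ω ≠ 1 := by
    intro h
    rw [hω] at h
    unfold E at h
    obtain ⟨c, hc⟩ := Complex.exp_eq_one_iff.1 h
    have hpi : (2 * (Real.pi : ℂ) * Complex.I) ≠ 0 := by
      simp [Real.pi_ne_zero, Complex.I_ne_zero]
    have h3 : (3 : ℂ) ^ j ≠ 0 := pow_ne_zero _ (by norm_num)
    have : ((w : ℤ) : ℂ) = ((3 * c : ℤ) : ℂ) := by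
      have e : ((((3 : ℤ) ^ j * w : ℤ) : ℂ) / 3 ^ (j + 1)) = c := by
        apply mul_left_cancel₀ hpi
        rw [hc]; ring
      push_cast at e ⊢
      field_simp at e
      apply mul_left_cancel₀ h3
      linear_combination e
    exact hw ⟨c, by exact_mod_cast this⟩
  have h3 : ω ^ 3 = 1 := by
    have : ω ^ 3 = E (j + 1) (3 ^ (j + 1) * w) := by
      rw [show (3 : ℤ) ^ (j + 1) * w = 3 ^ j * w + 3 ^ j * w + 3 ^ j * w by ring, E_add, E_add]
      ring
    rw [this, E_mul_pow]
  have h2 : E (j + 1) (3 ^ j * w * (2 : ℕ)) = ω ^ 2 := by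
    rw [show (3 : ℤ) ^ j * w * (2 : ℕ) = 3 ^ j * w + 3 ^ j * w by push_cast; ring, E_add]
    ring
  have h0 : E (j + 1) (3 ^ j * w * (0 : ℕ)) = 1 := by
    simp [E]
  have h4 : E (j + 1) (3 ^ j * w * (1 : ℕ)) = ω := by simp [hω]
  rw [sum_range_succ, sum_range_succ, sum_range_one, h0, h4, h2]
  have : (ω - 1) * (1 + ω + ω ^ 2) = 0 := by linear_combination h3
  rcases mul_eq_zero.1 this with h | h
  · exact absurd (sub_eq_zero.1 h) h1
  · exact h

theorem ort (κ : ℤ) (hκ : ¬ (3 : ℤ) ∣ κ) (n : ℕ) : ∀ (L j : ℕ) (w w' : ℤ), j < n → n ≤ j + L →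
    ¬ (3 : ℤ) ∣ w → ∑ l ∈ W 3 L, E n (3 ^ j * w * U κ l + 3 ^ (j + 1) * w' * V l) = 0 := by
  intro L
  induction L with
  | zero => intro j w w' h1 h2; omega
  | succ L ih =>
    intro j w w' h1 h2 hw
    rw [sum_W_succ]
    have key : ∀ (a : ℕ) (t : List ℕ),
        E n (3 ^ j * w * U κ (a :: t) + 3 ^ (j + 1) * w' * V (a :: t)) =
        E n (3 ^ j * (10 * w + 3 * w') * a) *
          E n (3 ^ (j + 1) * (w * κ ^ a) * U κ t + 3 ^ (j + 1 + 1) * w' * V t) := by
      intro a t
      rw [← E_add]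
      congr 1
      simp only [U, V]
      ring
    simp only [key, ← mul_sum]
    by_cases hj : j + 1 < n
    · refine sum_eq_zero fun a _ => ?_
      rw [ih (j + 1) (w * κ ^ a) w' hj (by omega), mul_zero]
      intro hd
      rcases (Int.prime_three.dvd_or_dvd hd) with hd | hd
      · exact hw hd
      · exact hκ (Int.prime_three.dvd_of_dvd_pow hd)
    · obtain rfl : n = j + 1 := by omega
      have one : ∀ (a : ℕ) (t : List ℕ),
          E (j + 1) (3 ^ (j + 1) * (w * κ ^ a) * U κ t + 3 ^ (j + 1 + 1) * w' * V t) = 1 := by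
        intro a t
        rw [show (3 : ℤ) ^ (j + 1) * (w * κ ^ a) * U κ t + 3 ^ (j + 1 + 1) * w' * V t
          = 3 ^ (j + 1) * (w * κ ^ a * U κ t + 3 * w' * V t) by ring, E_mul_pow]
      simp only [one]
      rw [← sum_mul, E_three j (10 * w + 3 * w') (by omega), zero_mul]

end Pool.Agent.P.MP_aaabff_nt
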